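import Pool.Agent.MP_3ee8cb_gt.D3MO.Spec

/-! The sphere satisfies the hypotheses of the counting lemma; central projection is a chart. -/

namespace Pool.Agent.MP_3ee8cb_gt.D3MO

open Set Filter Topology Metric

theorem log_vec {W : Type} [NormedAddCommGroup W] [NormedSpace ℝ W] (g : W → ℂ)
    (hg : Continuous g) (h0 : ∀ w, g w ≠ 0) :
    ∃ f : W → ℂ, Continuous f ∧ ∀ w, Complex.exp (f w) = g w := by
  obtain ⟨f, ⟨-, hf⟩, -⟩ := Complex.isCoveringMapOn_exp.existsUnique_continuousMap_lifts
    (⟨g, hg⟩ : C(W, ℂ)) (a₀ := 0) (Complex.exp_log (h0 0)) (fun x => h0 x)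
  exact ⟨f, f.continuous, fun w => congrFun hf w⟩

theorem sSph : SSph := by
  refine ⟨fun s Ψ hΨ h0 => ?_, ChartedSpace.locallyPathConnectedSpace
    (EuclideanSpace ℝ (Fin 2)) _, isPathConnected_iff_pathConnectedSpace.1
      (isPathConnected_sphere ?_ _ zero_le_one)⟩
  · have hs : ‖(s : EuclideanSpace ℝ (Fin 3))‖ = 1 := by simp
    have hso : (stereographic hs).source = {s}ᶜ := stereographic_source hs
    have hm : ∀ w, (stereographic hs).symm w ∈ ({s}ᶜ : Set S2) := fun w => by
      rw [← hso]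
      exact (stereographic hs).map_target (by simp)
    have hc : Continuous (stereographic hs).symm := by
      have := (stereographic hs).continuousOn_symm
      rwa [stereographic_target, continuousOn_univ] at this
    obtain ⟨f, hf, he⟩ := log_vec (fun w => Ψ ((stereographic hs).symm w))
      (hΨ.comp_continuous hc hm) (fun w => h0 _ (hm w))
    refine ⟨fun p => f (stereographic hs p), hf.comp_continuousOn
      (hso ▸ (stereographic hs).continuousOn), fun p hp => ?_⟩
    rw [he, (stereographic hs).left_inv (by rw [hso]; exact hp)]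
  · rw [← Module.finrank_eq_rank, finrank_euclideanSpace_fin]
    exact_mod_cast (by norm_num : 1 < 3)

theorem sGno : SGno := by
  intro V _ _ hV p ι φ hι ho hφ
  have : FiniteDimensional ℝ V := Module.finite_of_finrank_pos (by omega)
  have hp : ‖(p : EuclideanSpace ℝ (Fin 3))‖ = 1 := by simp
  have hpp : inner ℝ p.1 p.1 = (1 : ℝ) := by rw [real_inner_self_eq_norm_sq, hp]; norm_num
  have hne : ∀ z, p.1 + ι z ≠ 0 := fun z e => by
    have := congrArg (inner ℝ p.1) e
    rw [inner_add_right, hpp, ho, inner_zero_right] at this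
    norm_num at this
  have h0 : φ 0 = p := Subtype.ext (by rw [hφ]; simp)
  have hc : Continuous φ := by
    rw [continuous_induced_rng]
    have : (Subtype.val ∘ φ) = fun z => ‖p.1 + ι z‖⁻¹ • (p.1 + ι z) := funext hφ
    rw [this]
    exact ((continuous_const.add ι.continuous).norm.inv₀ fun z => norm_ne_zero_iff.2 (hne z)).smul
      (continuous_const.add ι.continuous)
  refine ⟨h0, Eventually.of_forall fun z => hc.continuousAt, Eventually.of_forall fun z e => ?_,
    fun U hU => ?_⟩
  · have h1 := hφ z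
    rw [e] at h1
    have h2 := congrArg (fun y => inner ℝ y (ι z)) h1
    simp only [inner_smul_left, inner_add_left, ho, zero_add, conj_trivial] at h2
    have h3 : inner ℝ (ι z) (ι z) = (0 : ℝ) :=
      (mul_eq_zero.1 h2.symm).resolve_left (inv_ne_zero (norm_ne_zero_iff.2 (hne z)))
    exact hι (by rw [inner_self_eq_zero.1 h3, map_zero])
  · obtain ⟨π, hπ⟩ := (ι : V →ₗ[ℝ] EuclideanSpace ℝ (Fin 3)).exists_leftInverse_of_injective
      (LinearMap.ker_eq_bot.2 hι)
    have hr : (ι : V →ₗ[ℝ] EuclideanSpace ℝ (Fin 3)).range = (ℝ ∙ p.1)ᗮ := by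
      refine Submodule.eq_of_le_of_finrank_eq ?_ ?_
      · rintro _ ⟨z, rfl⟩
        exact Submodule.mem_orthogonal_singleton_iff_inner_right.2 (ho z)
      · have : Fact (Module.finrank ℝ (EuclideanSpace ℝ (Fin 3)) = 2 + 1) := ⟨by simp⟩
        rw [LinearMap.finrank_range_of_inj hι, hV,
          Submodule.finrank_orthogonal_span_singleton (n := 2) (norm_ne_zero_iff.1 (by simp))]
    have c1 : ContinuousAt (fun y : S2 => inner ℝ p.1 y.1) p := by fun_prop
    have c2 : ContinuousAt (fun y : S2 => π ((inner ℝ p.1 y.1 : ℝ)⁻¹ • y.1 - p.1)) p :=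
      π.continuous_of_finiteDimensional.continuousAt.comp
        (((c1.inv₀ (by rw [hpp]; norm_num)).smul continuousAt_subtype_val).sub continuousAt_const)
    have e1 : ∀ᶠ y : S2 in 𝓝 p, 0 < inner ℝ p.1 y.1 :=
      c1.eventually (lt_mem_nhds (hpp.symm ▸ one_pos : (0 : ℝ) < inner ℝ p.1 p.1))
    have e2 := c2.eventually (p := (· ∈ U)) (by simpa [hpp] using hU)
    filter_upwards [e1, e2] with y y1 y2
    refine ⟨_, y2, Subtype.ext ?_⟩
    obtain ⟨z, hz⟩ : (inner ℝ p.1 y.1 : ℝ)⁻¹ • y.1 - p.1 ∈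
        (ι : V →ₗ[ℝ] EuclideanSpace ℝ (Fin 3)).range := by
      rw [hr, Submodule.mem_orthogonal_singleton_iff_inner_right, inner_sub_right,
        inner_smul_right, inv_mul_cancel₀ y1.ne', hpp, sub_self]
    have h4 : π ((inner ℝ p.1 y.1 : ℝ)⁻¹ • y.1 - p.1) = z := by
      rw [← hz]
      exact LinearMap.congr_fun hπ z
    have h5 : p.1 + ι z = (inner ℝ p.1 y.1 : ℝ)⁻¹ • y.1 := by
      rw [show ι z = _ from hz]
      abel
    rw [h4, hφ, h5, norm_smul, norm_eq_of_mem_sphere, mul_one, Real.norm_of_nonneg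
      (inv_pos.2 y1).le, smul_smul, inv_mul_cancel₀ (inv_pos.2 y1).ne', one_smul]

end Pool.Agent.MP_3ee8cb_gt.D3MO
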