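import Pool.Agent.MP_3ee8cb_gt.D3MO.Spec

/-! The elder rule for an increasing family of open sets. -/

namespace Pool.Agent.MP_3ee8cb_gt.D3MO

open Set Filter Topology Metric

variable {P : Type} [MetricSpace P]

/-- Near `p` the set `O` lies in one path component. -/
def Low (O : Set P) (p : P) : Prop := ∃ U ∈ 𝓝 p, ∀ q ∈ U ∩ O, ∀ q' ∈ U ∩ O, JoinedIn O q q'

/-- Near `p` the set `O` lies in two path components. -/
def Low2 (O : Set P) (p : P) : Prop :=
  ∃ U ∈ 𝓝 p, ∃ a b, ∀ q ∈ U ∩ O, JoinedIn O q a ∨ JoinedIn O q b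

/-- Near `p` the set `O` lies in `A` or off `A`. -/
def Di (O A : Set P) (p : P) : Prop := ∃ U ∈ 𝓝 p, U ∩ O ⊆ A ∨ U ∩ O ⊆ Aᶜ

theorem low_of_mem [LocallyPathConnectedSpace P] {O : Set P} (hO : IsOpen O) {p : P} (hp : p ∈ O) :
    Low O p :=
  ⟨pathComponentIn O p, pathComponentIn_mem_nhds (hO.mem_nhds hp),
    fun _ hq _ hq' => (JoinedIn.symm hq.1).trans hq'.1⟩

theorem Low.di {O A : Set P} {p : P} (h : Low O p)
    (hA : ∀ q ∈ A, ∀ q', JoinedIn O q q' → q' ∈ A) : Di O A p := by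
  obtain ⟨U, hU, h⟩ := h
  refine ⟨U, hU, ?_⟩
  by_cases e : ∃ q ∈ U ∩ O, q ∈ A
  · obtain ⟨q, hq, hqA⟩ := e
    exact Or.inl fun q' hq' => hA q hqA q' (h q hq q' hq')
  · exact Or.inr fun q hq hqA => e ⟨q, hq, hqA⟩

theorem Di.not {O A : Set P} {p : P} (h : Di O A p) (h1 : p ∈ closure (O ∩ A))
    (h2 : p ∈ closure (O \ A)) : False := by
  obtain ⟨U, hU, h | h⟩ := h
  · obtain ⟨q, hq, hq'⟩ := mem_closure_iff_nhds.1 h2 U hU
    exact hq'.2 (h ⟨hq, hq'.1⟩)
  · obtain ⟨q, hq, hq'⟩ := mem_closure_iff_nhds.1 h1 U hU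
    exact h ⟨hq, hq'.1⟩ hq'.2

variable {g : ℝ → P → ℝ}

theorem path_time (cp : ∀ t, Continuous (g t)) (anti : ∀ p, Antitone fun t => g t p) {T : Set ℝ}
    {a b : P} (h : JoinedIn {p | ∃ t ∈ T, g t p < 0} a b) :
    ∃ t ∈ T, JoinedIn {p | g t p < 0} a b := by
  obtain ⟨t0, ht0, -⟩ := h.source_mem
  obtain ⟨γ, hγ⟩ := h
  haveI : Nonempty T := ⟨⟨t0, ht0⟩⟩
  obtain ⟨t, ht⟩ := (isCompact_range γ.continuous).elim_directed_cover
    (fun t : T => {p | g t p < 0}) (fun t => isOpen_lt (cp t) continuous_const)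
    (by
      rintro _ ⟨s, rfl⟩
      obtain ⟨t, ht, h⟩ := hγ s
      exact mem_iUnion.2 ⟨⟨t, ht⟩, h⟩)
    (by
      intro s t
      rcases le_total (s : ℝ) t with h | h
      · exact ⟨t, fun p hp => lt_of_le_of_lt (anti p h) hp, Subset.rfl⟩
      · exact ⟨s, Subset.rfl, fun p hp => lt_of_le_of_lt (anti p h) hp⟩)
  exact ⟨t, t.2, γ, fun s => ht ⟨s, rfl⟩⟩

theorem sep [CompactSpace P] (cp : ∀ t, Continuous (g t)) (ct : ∀ p, Continuous fun t => g t p)
    (anti : ∀ p, Antitone fun t => g t p) {τ : ℝ} {K1 K2 : Set P} (h1 : IsClosed K1)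
    (h2 : IsClosed K2) (hd : Disjoint K1 K2) (hK : ∀ p, g τ p ≤ 0 → p ∈ K1 ∪ K2) :
    ∃ t, τ < t ∧ ∀ a ∈ K1, ∀ b ∈ K2, ¬JoinedIn {p | g t p < 0} a b := by
  obtain ⟨U1, U2, o1, o2, s1, s2, hU⟩ := normal_separation h1 h2 hd
  haveI : Nonempty (Ioi τ) := ⟨⟨τ + 1, by simp⟩⟩
  obtain ⟨t, ht⟩ := (o1.union o2).isClosed_compl.isCompact.elim_directed_cover
    (fun t : Ioi τ => {p | 0 < g t p}) (fun t => isOpen_lt continuous_const (cp t))
    (by
      intro p hp
      have h0 : 0 < g τ p := not_le.1 fun h => hp ((hK p h).imp (s1 ·) (s2 ·))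
      have h3 : ∀ᶠ t in 𝓝[>] τ, 0 < g t p :=
        nhdsWithin_le_nhds (continuousAt_const.eventually_lt (ct p).continuousAt h0)
      obtain ⟨t, h4, h5⟩ := (h3.and self_mem_nhdsWithin).exists
      exact mem_iUnion.2 ⟨⟨t, h5⟩, h4⟩)
    (by
      intro s t
      rcases le_total (s : ℝ) t with h | h
      · exact ⟨s, Subset.rfl, fun p hp => lt_of_lt_of_le hp (anti p h)⟩
      · exact ⟨t, fun p hp => lt_of_lt_of_le hp (anti p h), Subset.rfl⟩)
  refine ⟨t, t.2, fun a ha b hb ⟨γ, hγ⟩ => ?_⟩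
  have hs : range γ ⊆ U1 ∪ U2 := by
    rintro _ ⟨s, rfl⟩
    by_contra hn
    exact lt_asymm (show g t (γ s) < 0 from hγ s) (show 0 < g t (γ s) from ht hn)
  have := (isPreconnected_range γ.continuous).subset_left_of_subset_union o1 o2 hU hs
    ⟨a, ⟨0, γ.source⟩, s1 ha⟩
  exact disjoint_left.1 hU (this ⟨1, γ.target⟩) (s2 hb)

open Classical in
theorem half [CompactSpace P] [LocallyPathConnectedSpace P] (cp : ∀ t, Continuous (g t))
    (ct : ∀ p, Continuous fun t => g t p) (anti : ∀ p, Antitone fun t => g t p)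
    (Mn Sd : Finset (ℝ × P)) (hm : ∀ a ∈ Mn, a.2 ∉ closure {p | g a.1 p < 0})
    (hs : ∀ a ∈ Sd, ∀ b ∈ Sd, a.1 = b.1 → a = b)
    (hl : ∀ t p, g t p = 0 → (t, p) ∈ Mn ∨ (p ∈ closure {p | g t p < 0} ∧
      (Low {p | g t p < 0} p ∨ ((t, p) ∈ Sd ∧ Low2 {p | g t p < 0} p))))
    (Z : Finset P) (z0 : P) (h0 : z0 ∈ Z) (hz : ∀ z ∈ Z, z ≠ z0 → ∃ t, 0 ≤ g t z)
    (hz' : ∀ z ∈ Z, ∀ τ, g τ z = 0 → (∀ t, τ < t → g t z < 0) → (τ, z) ∈ Mn)
    (hc : ∀ z ∈ Z, ∃ t, JoinedIn {p | g t p < 0} z z0) :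
    Z.card ≤ 1 + (Sd.filter fun a => g a.1 a.2 = 0 ∧ ¬Low {p | g a.1 p < 0} a.2).card := by
  obtain ⟨r, hr, hr0⟩ : ∃ r : P → ℕ, InjOn r Z ∧ ∀ z ∈ Z, z ≠ z0 → r z0 < r z := by
    refine ⟨fun z => if h : z ∈ Z ∧ z ≠ z0 then (Z.equivFin ⟨z, h.1⟩ : ℕ) + 1 else 0, ?_, ?_⟩
    · intro z hz w hw e
      dsimp only at e
      by_cases a : z = z0 <;> by_cases b : w = z0
      · rw [a, b]
      · rw [dif_neg fun h => h.2 a, dif_pos ⟨hw, b⟩] at e
        omega
      · rw [dif_pos ⟨hz, a⟩, dif_neg fun h => h.2 b] at e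
        omega
      · rw [dif_pos ⟨hz, a⟩, dif_pos ⟨hw, b⟩] at e
        exact congrArg Subtype.val (Z.equivFin.injective (a₁ := ⟨z, hz⟩) (a₂ := ⟨w, hw⟩)
          (Fin.ext (Nat.succ_injective e)))
    · intro z hz a
      dsimp only
      rw [dif_neg fun h => h.2 rfl, dif_pos ⟨hz, a⟩]
      omega
  have mono : ∀ {s t : ℝ} {a b : P}, s ≤ t → JoinedIn {p | g s p < 0} a b →
      JoinedIn {p | g t p < 0} a b := fun h j =>
    j.mono fun p hp => lt_of_le_of_lt (anti p h) hp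
  have op : ∀ t, IsOpen {p | g t p < 0} := fun t => isOpen_lt (cp t) continuous_const
  have key : ∀ z ∈ Z, z ≠ z0 → ∃ τ w, r w < r z ∧
      (∀ w' ∈ Z, r w' < r z → ¬JoinedIn {p | g τ p < 0} z w') ∧ w ∈ Z ∧
      ∀ A : Set P, z ∈ A → w ∉ A → ∃ p ∈ closure {p | g τ p < 0}, ¬Di {p | g τ p < 0} A p := by
    intro z hzZ hz0
    set S : Set ℝ := {t | ∃ w ∈ Z, r w < r z ∧ JoinedIn {p | g t p < 0} z w} with hS
    have ne : S.Nonempty := by
      obtain ⟨t, ht⟩ := hc z hzZ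
      exact ⟨t, z0, h0, hr0 z hzZ hz0, ht⟩
    have bd : BddBelow S := by
      obtain ⟨t, ht⟩ := hz z hzZ hz0
      refine ⟨t, fun s ⟨w, _, _, j⟩ => ?_⟩
      by_contra hn
      exact absurd (lt_of_le_of_lt (anti z (not_le.1 hn).le) j.source_mem) (not_lt.2 ht)
    obtain ⟨w, hw, hrw, hj⟩ : ∃ w ∈ Z, r w < r z ∧
        ∀ t, sInf S < t → JoinedIn {p | g t p < 0} z w := by
      by_contra hn
      have e : ∀ᶠ t in 𝓝[>] sInf S, ∀ w ∈ Z, r w < r z → ¬JoinedIn {p | g t p < 0} z w := by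
        refine (Finset.eventually_all Z).2 fun w hw => ?_
        by_cases a : r w < r z
        · obtain ⟨t, ht, hj⟩ : ∃ t, sInf S < t ∧ ¬JoinedIn {p | g t p < 0} z w := by
            by_contra hq
            exact hn ⟨w, hw, a, fun t ht => not_not.1 fun j => hq ⟨t, ht, j⟩⟩
          filter_upwards [nhdsWithin_le_nhds (Iio_mem_nhds ht)] with s hs _ j
          exact hj (mono (le_of_lt hs) j)
        · exact Eventually.of_forall fun _ b => absurd b a
      obtain ⟨t, h4, h5⟩ := (e.and self_mem_nhdsWithin).exists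
      obtain ⟨s, ⟨w, hw, a, j⟩, hs⟩ := exists_lt_of_csInf_lt ne h5
      exact h4 w hw a (mono hs.le j)
    refine ⟨sInf S, w, hrw, fun w' hw' a j => ?_, hw, fun A hA hA' => ?_⟩
    · obtain ⟨t, ht, j'⟩ := path_time cp anti (T := Iio (sInf S)) (j.mono fun p hp => by
        have h3 : ∀ᶠ t in 𝓝[<] sInf S, g t p < 0 :=
          nhdsWithin_le_nhds ((ct p).continuousAt.eventually_lt continuousAt_const hp)
        obtain ⟨t, h4, h5⟩ := (h3.and self_mem_nhdsWithin).exists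
        exact ⟨t, h5, h4⟩)
      exact absurd (csInf_le bd ⟨w', hw', a, j'⟩) (not_le.2 ht)
    · by_contra hn
      have hn' : ∀ p ∈ closure {p | g (sInf S) p < 0}, Di {p | g (sInf S) p < 0} A p :=
        fun p hp => not_not.1 fun h => hn ⟨p, hp, h⟩
      set O : Set P := {p | g (sInf S) p < 0} with hO
      set M : Set P := {p | (sInf S, p) ∈ Mn} with hM
      have fin : M.Finite := Mn.finite_toSet.preimage (f := fun p => (sInf S, p))
        fun _ _ _ _ e => congrArg Prod.snd e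
      have hMO : ∀ p ∈ M, ∀ B : Set P, B ⊆ O → p ∉ closure B := fun p hp B hB h =>
        hm _ hp (closure_mono hB h)
      have mem : ∀ x ∈ Z, (∀ t, sInf S < t → g t x < 0) → x ∈ O ∨ x ∈ M := by
        intro x hx h
        have h6 : g (sInf S) x ≤ 0 := by
          by_contra hq
          have h3 : ∀ᶠ t in 𝓝[>] sInf S, 0 < g t x := nhdsWithin_le_nhds
            (continuousAt_const.eventually_lt (ct x).continuousAt (not_le.1 hq))
          obtain ⟨t, h4, h5⟩ := (h3.and self_mem_nhdsWithin).exists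
          exact lt_asymm h4 (h t h5)
        exact h6.lt_or_eq.imp id fun e => hz' x hx _ e h
      obtain ⟨t, ht, hsep⟩ := sep cp ct anti (τ := sInf S)
        (K1 := closure (O ∩ A) ∪ M ∩ A) (K2 := closure (O \ A) ∪ M \ A)
        (isClosed_closure.union (fin.subset inter_subset_left).isClosed)
        (isClosed_closure.union (fin.subset diff_subset).isClosed)
        (by
          rw [disjoint_left]
          rintro p (a | a) (b | b)
          · exact (hn' p (closure_mono inter_subset_left a)).not a b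
          · exact hMO p b.1 _ inter_subset_left a
          · exact hMO p a.1 _ diff_subset b
          · exact b.2 a.2)
        (by
          intro p hp
          have h7 : p ∈ closure O ∨ p ∈ M := by
            rcases hp.lt_or_eq with e | e
            · exact Or.inl (subset_closure e)
            · exact (hl _ p e).symm.imp And.left id
          rcases h7 with e | e
          · rw [← inter_union_diff O A, closure_union] at e
            exact e.imp Or.inl Or.inl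
          · by_cases a : p ∈ A
            · exact Or.inl (Or.inr ⟨e, a⟩)
            · exact Or.inr (Or.inr ⟨e, a⟩))
      refine hsep z ?_ w ?_ (hj t ht)
      · exact (mem z hzZ fun t ht => (hj t ht).source_mem).imp
          (fun e => subset_closure ⟨e, hA⟩) fun e => ⟨e, hA⟩
      · exact (mem w hw fun t ht => (hj t ht).target_mem).imp
          (fun e => subset_closure ⟨e, hA'⟩) fun e => ⟨e, hA'⟩
  choose! τ w hrw hnj hwZ hA using key
  let A : P → ℝ → Set P := fun z t => {q | JoinedIn {p | g t p < 0} z q ∨ q = z}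
  have sat : ∀ z t, ∀ q ∈ A z t, ∀ q', JoinedIn {p | g t p < 0} q q' → q' ∈ A z t := by
    rintro z t q (h | h) q' j
    · exact Or.inl (h.trans j)
    · exact Or.inl (h ▸ j)
  have bad : ∀ t p (B : Set P), (∀ q ∈ B, ∀ q', JoinedIn {p | g t p < 0} q q' → q' ∈ B) →
      p ∈ closure {p | g t p < 0} → ¬Di {p | g t p < 0} B p →
      g t p = 0 ∧ ¬Low {p | g t p < 0} p ∧ (t, p) ∈ Sd ∧ Low2 {p | g t p < 0} p := by
    intro t p B hB hp hd
    have nl : ¬Low {p | g t p < 0} p := fun h => hd (h.di hB)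
    have e : g t p = 0 := le_antisymm
      (closure_minimal (fun q (hq : g t q < 0) => hq.le) (isClosed_le (cp t) continuous_const) hp)
      (not_lt.1 fun h => nl (low_of_mem (op t) h))
    rcases hl t p e with h | ⟨-, h | h⟩
    · exact absurd hp (hm _ h)
    · exact absurd h nl
    · exact ⟨e, nl, h⟩
  have nA : ∀ z ∈ Z, z ≠ z0 → ∀ x ∈ Z, r x < r z → x ∉ A z (τ z) := by
    rintro z hz hz0 x hx a (h | h)
    · exact hnj z hz hz0 x hx a h
    · exact absurd (h ▸ a) (lt_irrefl _)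
  have st : ∀ z ∈ Z, z ≠ z0 → ∃ s, s ∈ closure {p | g (τ z) p < 0} ∧
      ¬Di {p | g (τ z) p < 0} (A z (τ z)) s := fun z hz hz0 =>
    hA z hz hz0 _ (Or.inr rfl) (nA z hz hz0 _ (hwZ z hz hz0) (hrw z hz hz0))
  choose! s hs1 hs2 using st
  have inj : ∀ z ∈ Z, z ≠ z0 → ∀ z' ∈ Z, z' ≠ z0 → r z < r z' → τ z = τ z' → False := by
    intro z hz hz0 z' hz1 hz2 a e
    have b1 := bad _ _ _ (sat z _) (hs1 z hz hz0) (hs2 z hz hz0)
    have b2 := bad _ _ _ (sat z' _) (hs1 z' hz1 hz2) (hs2 z' hz1 hz2)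
    have d1 := hs2 z hz hz0
    have d2 := hs2 z' hz1 hz2
    have n2 := nA z' hz1 hz2
    have es : s z' = s z := congrArg Prod.snd (hs _ b2.2.2.1 _ b1.2.2.1 e.symm)
    rw [← e] at n2
    rw [← e, es] at d2
    obtain ⟨p, hp, hd⟩ := hA z hz hz0 (A z (τ z) ∪ A z' (τ z)) (Or.inl (Or.inr rfl)) (by
      rintro (h | h)
      · exact nA z hz hz0 _ (hwZ z hz hz0) (hrw z hz hz0) h
      · exact n2 _ (hwZ z hz hz0) ((hrw z hz hz0).trans a) h)
    have sat2 : ∀ q ∈ A z (τ z) ∪ A z' (τ z), ∀ q', JoinedIn {p | g (τ z) p < 0} q q' →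
        q' ∈ A z (τ z) ∪ A z' (τ z) := fun q hq q' j =>
      hq.imp (fun h => sat _ _ q h q' j) fun h => sat _ _ q h q' j
    have b3 := bad _ _ _ sat2 hp hd
    have ep : p = s z := congrArg Prod.snd (hs _ b3.2.2.1 _ b1.2.2.1 rfl)
    obtain ⟨U, hU, a1, a2, hU'⟩ := b1.2.2.2
    obtain ⟨q, hq, hqA⟩ : ∃ q ∈ U ∩ {p | g (τ z) p < 0}, q ∈ A z (τ z) := by
      by_contra hn
      exact d1 ⟨U, hU, Or.inr fun q hq h => hn ⟨q, hq, h⟩⟩
    obtain ⟨q', hq', hqA'⟩ : ∃ q ∈ U ∩ {p | g (τ z) p < 0}, q ∈ A z' (τ z) := by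
      by_contra hn
      exact d2 ⟨U, hU, Or.inr fun q hq h => hn ⟨q, hq, h⟩⟩
    have nj : ¬JoinedIn {p | g (τ z) p < 0} q' q := by
      intro j
      have j2 : JoinedIn {p | g (τ z) p < 0} q z := by
        rcases hqA with h | h
        · exact h.symm
        · rw [h] at hq ⊢
          exact JoinedIn.refl hq.2
      exact n2 z hz a (sat _ _ q' hqA' z (j.trans j2))
    refine hd ⟨U, ep ▸ hU, Or.inl fun x hx => ?_⟩
    rcases hU' q hq with j | j <;> rcases hU' q' hq' with j' | j' <;> rcases hU' x hx with k | k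
    · exact absurd (j'.trans j.symm) nj
    · exact absurd (j'.trans j.symm) nj
    · exact sat2 q (Or.inl hqA) x (j.trans k.symm)
    · exact sat2 q' (Or.inr hqA') x (j'.trans k.symm)
    · exact sat2 q' (Or.inr hqA') x (j'.trans k.symm)
    · exact sat2 q (Or.inl hqA) x (j.trans k.symm)
    · exact absurd (j'.trans j.symm) nj
    · exact absurd (j'.trans j.symm) nj
  have hcard : (Z.erase z0).card ≤
      (Sd.filter fun a => g a.1 a.2 = 0 ∧ ¬Low {p | g a.1 p < 0} a.2).card := by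
    refine Finset.card_le_card_of_injOn (fun z => (τ z, s z)) (fun z hz => ?_) fun z hz z' hz' e => ?_
    · obtain ⟨a, b⟩ := Finset.mem_erase.1 hz
      have b1 := bad _ _ _ (sat z _) (hs1 z b a) (hs2 z b a)
      exact Finset.mem_coe.2 (Finset.mem_filter.2 ⟨b1.2.2.1, b1.1, b1.2.1⟩)
    · obtain ⟨a, b⟩ := Finset.mem_erase.1 hz
      obtain ⟨a', b'⟩ := Finset.mem_erase.1 hz'
      have e1 : τ z = τ z' := congrArg Prod.fst e
      rcases lt_trichotomy (r z) (r z') with h | h | h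
      · exact (inj z b a z' b' a' h e1).elim
      · exact hr b b' h
      · exact (inj z' b' a' z b a h e1.symm).elim
  rw [Finset.card_erase_of_mem h0] at hcard
  omega

end Pool.Agent.MP_3ee8cb_gt.D3MO
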