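import Pool.Agent.MP_3ee8cb_gt.D3MO.Spec

/-! A definite Hessian gives a strict local extremum. -/

namespace Pool.Agent.MP_3ee8cb_gt.D3MO

open Set Filter Topology Metric

variable {V : Type} [NormedAddCommGroup V] [NormedSpace ℝ V]

theorem coer [FiniteDimensional ℝ V] (H : V →L[ℝ] V →L[ℝ] ℝ) (h : ∀ v, v ≠ 0 → 0 < H v v) :
    ∃ c : ℝ, 0 < c ∧ ∀ v, c * (‖v‖ * ‖v‖) ≤ H v v := by
  have : ProperSpace V := FiniteDimensional.proper_real V
  obtain ⟨c, c0, hc⟩ := (isCompact_sphere (0 : V) 1).exists_forall_le'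
    (f := fun v => H v v) (a := 0) (by fun_prop) (fun v hv => h v (by
      rintro rfl
      simp at hv))
  refine ⟨c, c0, fun v => ?_⟩
  rcases eq_or_ne v 0 with rfl | hv
  · simp
  have n0 : 0 < ‖v‖ := norm_pos_iff.2 hv
  have := hc (‖v‖⁻¹ • v) (by simp [norm_smul, n0.ne'])
  simp only [map_smul, smul_apply, smul_eq_mul] at this
  rwa [← mul_assoc, ← mul_inv, le_inv_mul_iff₀ (by positivity), mul_comm] at this

theorem def_pos [FiniteDimensional ℝ V] {F : V → ℝ} {H : V →L[ℝ] V →L[ℝ] ℝ} (hF : Cr F H)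
    (h : ∀ v, v ≠ 0 → 0 < H v v) : ∀ᶠ z in 𝓝 (0 : V), z ≠ 0 → F 0 < F z := by
  obtain ⟨D, hD, D0, hH⟩ := hF
  obtain ⟨c, c0, hc⟩ := coer H h
  obtain ⟨r, r0, hr⟩ := Metric.eventually_nhds_iff.1
    (hD.and (hH.isLittleO.def (c := c / 2) (half_pos c0)))
  filter_upwards [ball_mem_nhds (0 : V) r0] with z hz z0
  have n0 : 0 < ‖z‖ := norm_pos_iff.2 z0
  have hs : ∀ s ∈ Icc (0 : ℝ) 1, dist (s • z) 0 < r := fun s hs => by
    rw [mem_ball, dist_zero_right] at hz
    rw [dist_zero_right, norm_smul, Real.norm_of_nonneg hs.1]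
    nlinarith [hs.1, hs.2]
  have hd : ∀ s ∈ Icc (0 : ℝ) 1, HasDerivAt (fun s : ℝ => F (s • z)) (D (s • z) z) s :=
    fun s h1 => by
      have := (hr (hs s h1)).1.comp_hasDerivAt s ((hasDerivAt_id s).smul_const z)
      simpa [Function.comp_def] using this
  obtain ⟨s, s1, e⟩ := exists_hasDerivAt_eq_slope (fun s : ℝ => F (s • z))
    (fun s => D (s • z) z) zero_lt_one (fun s h1 => (hd s h1).continuousAt.continuousWithinAt)
    (fun s h1 => hd s (Ioo_subset_Icc_self h1))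
  simp only [one_smul, zero_smul, sub_zero, div_one] at e
  have h2 := (hr (hs s (Ioo_subset_Icc_self s1))).2
  rw [D0, sub_zero, sub_zero, norm_smul, Real.norm_of_nonneg s1.1.le] at h2
  have h3 := ((D (s • z) - H (s • z)).le_opNorm z).trans (mul_le_mul_of_nonneg_right h2 n0.le)
  have h4 := (abs_le.1 h3).1
  simp only [map_smul, sub_apply, smul_apply,
    smul_eq_mul] at h4
  have h5 := mul_le_mul_of_nonneg_left (hc z) s1.1.le
  have h6 : 0 < s * (c * (‖z‖ * ‖z‖)) := mul_pos s1.1 (by positivity)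
  linarith

theorem sDef : SDef := by
  have key : ∀ (P V : Type) [TopologicalSpace P] [NormedAddCommGroup V] [NormedSpace ℝ V]
      [FiniteDimensional ℝ V] (f : P → ℝ) (φ : V → P) (p : P) (H : V →L[ℝ] V →L[ℝ] ℝ), Ch φ p →
      Cr (fun z => f (φ z)) H → (∀ v, v ≠ 0 → 0 < H v v) → ∀ᶠ q in 𝓝[≠] p, f p < f q := by
    intro P V _ _ _ _ f φ p H hφ hC h
    have := hφ.onto _ (def_pos hC h)
    rw [eventually_nhdsWithin_iff]
    filter_upwards [this] with q hq qp
    obtain ⟨z, hz, rfl⟩ := hq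
    have := hz (by
      rintro rfl
      exact qp hφ.zero)
    simpa only [hφ.zero] using this
  intro P V _ _ _ _ f φ p H hφ hC
  refine ⟨key P V f φ p H hφ hC, fun h => ?_⟩
  obtain ⟨D, hD, D0, hH⟩ := hC
  have := key P V (fun q => -f q) φ p (-H) hφ
    ⟨fun z => -D z, hD.mono fun z hz => hz.neg, by simp [D0], hH.neg⟩
    (fun v hv => by simpa using h v hv)
  exact this.mono fun q hq => neg_lt_neg_iff.1 hq

end Pool.Agent.MP_3ee8cb_gt.D3MO
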