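import Pool.Agent.MP_3ee8cb_gt.D3MO.NoLog

/-! The Tietze step: two zeros of a map that is null homotopic off `O` are joined in `O`. -/

namespace Pool.Agent.MP_3ee8cb_gt.D3MO

open Set Filter Topology Metric

/-- A map into the punctured plane that is homotopic to a constant has a logarithm. -/
theorem log_htp {A : Type} [TopologicalSpace A] (H : unitInterval × A → ℂ) (hH : Continuous H)
    (h0 : ∀ x, H x ≠ 0) {c : ℂ} (hc : ∀ a, H (0, a) = c) :
    ∃ θ : A → ℂ, Continuous θ ∧ ∀ a, Complex.exp (θ a) = H (1, a) := by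
  let K : C(unitInterval × A, {z : ℂ // z ≠ 0}) := ⟨fun x => ⟨H x, h0 x⟩, hH.subtype_mk _⟩
  have hK : ∀ a, K (0, a) = (fun z : ℂ => (⟨_, z.exp_ne_zero⟩ : {z : ℂ // z ≠ 0}))
      (ContinuousMap.const A (Complex.log c) a) := fun a => Subtype.ext (by
    change H (0, a) = Complex.exp (Complex.log c)
    rw [Complex.exp_log (hc a ▸ h0 (0, a)), hc])
  refine ⟨fun a => Complex.isCoveringMap_exp.liftHomotopy K _ hK (1, a), by fun_prop, fun a => ?_⟩
  exact congrArg Subtype.val (congrFun (Complex.isCoveringMap_exp.liftHomotopy_lifts K _ hK) (1, a))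

/-- No logarithm exists round a nondegenerate zero. -/
theorem noLog_loc {P V : Type} [TopologicalSpace P] [NormedAddCommGroup V] [NormedSpace ℝ V]
    (hV : Module.finrank ℝ V = 2) {ν θ : P → ℂ} {b : P} {φ : V → P} {L : V →L[ℝ] ℂ}
    (hb : ν b = 0) (hφ : Ch φ b) (hL : HasFDerivAt (fun z => ν (φ z)) L 0)
    (hi : Function.Injective L) (hθ : ContinuousOn θ {b}ᶜ)
    (he : ∀ᶠ p in 𝓝 b, p ≠ b → Complex.exp (θ p) = ν p) : False := by
  have : FiniteDimensional ℝ V := Module.finite_of_finrank_pos (by omega)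
  have hs : Function.Surjective L :=
    (LinearMap.injective_iff_surjective_of_finrank_eq_finrank
      (f := (L : V →ₗ[ℝ] ℂ)) (by rw [hV, Complex.finrank_real_complex])).1 hi
  let M : V ≃L[ℝ] ℂ := (LinearEquiv.ofBijective (L : V →ₗ[ℝ] ℂ) ⟨hi, hs⟩).toContinuousLinearEquiv
  have hM : ∀ w, L (M.symm w) = w := fun w => M.apply_symm_apply w
  set C : ℝ := ‖(M.symm : ℂ →L[ℝ] V)‖ + 1 with hC
  have C0 : 0 < C := by positivity
  have hn : ∀ w, ‖M.symm w‖ ≤ C * ‖w‖ := fun w =>
    ((M.symm : ℂ →L[ℝ] V).le_opNorm w).trans (by nlinarith [norm_nonneg w])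
  have t0 : Tendsto φ (𝓝 0) (𝓝 b) := hφ.zero ▸ hφ.cont.self_of_nhds
  obtain ⟨r, r0, hr⟩ := Metric.eventually_nhds_iff.1 (hφ.cont.and (hφ.inj.and
    ((t0.eventually he).and (hL.isLittleO.def (c := (2 * C)⁻¹) (by positivity)))))
  set ρ : ℝ := r / (2 * C) with hρ
  have ρ0 : 0 < ρ := by positivity
  let z : ℝ → V := fun t => M.symm (ρ * Complex.exp (t * Complex.I))
  have nw : ∀ t : ℝ, ‖(ρ : ℂ) * Complex.exp (t * Complex.I)‖ = ρ := fun t => by
    rw [norm_mul, Complex.norm_exp_ofReal_mul_I, mul_one, Complex.norm_real,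
      Real.norm_of_nonneg ρ0.le]
  have nz : ∀ t, ‖z t‖ ≤ C * ρ := fun t => nw t ▸ hn _
  have dz : ∀ t, dist (z t) 0 < r := fun t => by
    rw [dist_zero_right]
    refine (nz t).trans_lt ?_
    rw [hρ, ← mul_div_assoc, div_lt_iff₀ (by positivity)]
    nlinarith
  have zb : ∀ t, φ (z t) ≠ b := fun t e => by
    have h1 := congrArg L ((hr (dz t)).2.1 e)
    rw [hM, map_zero] at h1
    have := nw t
    rw [h1, norm_zero] at this
    exact ρ0.ne this
  have cz : Continuous z := by fun_prop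
  have cφ : Continuous fun t => φ (z t) :=
    continuous_iff_continuousAt.2 fun t => (hr (dz t)).1.comp cz.continuousAt
  refine noLog (fun t => θ (φ (z t))) (hθ.comp_continuous cφ zb) ?_ fun t l l0 e => ?_
  · have : z (2 * Real.pi) = z 0 := by
      simp only [z]
      push_cast
      rw [Complex.exp_two_pi_mul_I]
      simp
    simp only [this]
  · have h1 := (hr (dz t)).2.2.2
    have h2 := (hr (dz t)).2.2.1 (zb t)
    simp only [hφ.zero, hb, sub_zero] at h1
    rw [← h2, e, hM] at h1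
    have h3 : -((l : ℂ) * Complex.exp (t * Complex.I)) - ρ * Complex.exp (t * Complex.I) =
        -(((l + ρ : ℝ) : ℂ) * Complex.exp (t * Complex.I)) := by
      push_cast
      ring
    rw [h3, norm_neg, norm_mul, Complex.norm_exp_ofReal_mul_I, mul_one, Complex.norm_real,
      Real.norm_of_nonneg (by positivity), le_inv_mul_iff₀ (by positivity)] at h1
    nlinarith [nz t, mul_pos C0 l0, mul_pos C0 ρ0]

theorem sTz : STz := by
  intro P V _ _ _ _ hV hl O ν a b φ L H c hO hν ha hb hz hb0 hφ hL hi hH h0 hc h1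
  classical
  by_contra hj
  have oB : IsOpen (pathComponentIn O b) := hO.pathComponentIn b
  have bB : b ∈ pathComponentIn O b := mem_pathComponentIn_self hb
  obtain ⟨θ, cθ, eθ⟩ := log_htp (A := ↥Oᶜ) (fun x => H (x.1, x.2))
    (hH.comp_continuous (by fun_prop) fun x => ⟨x.1.2, x.2.2⟩)
    (fun x => h0 _ x.1.2 _ x.2.2) (c := c) (fun x => hc _ x.2)
  obtain ⟨η, hη⟩ := ContinuousMap.exists_restrict_eq hO.isClosed_compl (⟨θ, cθ⟩ : C(↥Oᶜ, ℂ))
  have eη : ∀ p, p ∉ O → Complex.exp (η p) = ν p := fun p hp => by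
    have h2 : η p = θ ⟨p, hp⟩ := DFunLike.congr_fun hη ⟨p, hp⟩
    rw [h2, eθ]
    exact h1 p hp
  have fr : ∀ p ∈ frontier (pathComponentIn O b), p ∉ O := fun p hp hpO => by
    rw [oB.frontier_eq] at hp
    obtain ⟨q, q1, q2⟩ := mem_closure_iff.1 hp.1 _ (hO.pathComponentIn p)
      (mem_pathComponentIn_self hpO)
    exact hp.2 (JoinedIn.trans q2 (JoinedIn.symm q1))
  have cΨ : Continuous ((pathComponentIn O b).piecewise ν fun p => Complex.exp (η p)) :=
    Continuous.piecewise (fun p hp => (eη p (fr p hp)).symm) hν (by fun_prop)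
  obtain ⟨ξ, cξ, eξ⟩ := hl b _ cΨ.continuousOn fun p hp => by
    by_cases hB : p ∈ pathComponentIn O b
    · rw [piecewise_eq_of_mem _ _ _ hB]
      intro e
      rcases hz p e with rfl | rfl
      · exact hj (JoinedIn.symm hB)
      · exact hp rfl
    · rw [piecewise_eq_of_notMem _ _ _ hB]
      exact Complex.exp_ne_zero _
  refine noLog_loc hV hb0 hφ hL hi cξ ?_
  filter_upwards [oB.mem_nhds bB] with p hp pb
  rw [eξ p pb, piecewise_eq_of_mem _ _ _ hp]

end Pool.Agent.MP_3ee8cb_gt.D3MO
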