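import Pool.Agent.MP_3ee8cb_gt.D3MO.Spec

/-! A loop that is never opposite to the standard loop has no periodic logarithm. -/

namespace Pool.Agent.MP_3ee8cb_gt.D3MO

open Complex

theorem exp_const {A : Type} [TopologicalSpace A] [PreconnectedSpace A] (w : A → ℂ)
    (hw : Continuous w) (h : ∀ a a', exp (w a) = exp (w a')) (a a' : A) : w a = w a' :=
  Complex.isCoveringMap_exp.const_of_comp hw (fun a a' => Subtype.ext (h a a')) a a'

theorem noLog (th : ℝ → ℂ) (hc : Continuous th) (hp : th (2 * Real.pi) = th 0)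
    (h : ∀ t : ℝ, ∀ l : ℝ, 0 < l → exp (th t) ≠ -(l * exp (t * I))) : False := by
  have hs : ∀ t : ℝ, exp (th t - t * I) ∈ slitPlane := fun t => by
    by_contra hn
    rw [mem_slitPlane_iff, not_or, not_lt, not_not] at hn
    have h0 := exp_ne_zero (th t - t * I)
    have h1 : exp (th t - t * I) = ((exp (th t - t * I)).re : ℂ) :=
      Complex.ext (by simp only [ofReal_re]) (by simp only [ofReal_im]; exact hn.2)
    have h2 : (exp (th t - t * I)).re ≠ 0 := fun e => h0 (by rw [h1, e]; simp)
    refine h t (-(exp (th t - t * I)).re) (neg_pos.2 (lt_of_le_of_ne hn.1 h2)) ?_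
    rw [ofReal_neg, ← h1, neg_mul, neg_neg, ← exp_add, sub_add_cancel]
  have c1 : Continuous fun t : ℝ => th t - t * I := by fun_prop
  have c2 : Continuous fun t : ℝ => th t - t * I - log (exp (th t - t * I)) :=
    c1.sub (c1.cexp.clog hs)
  have e1 : ∀ t : ℝ, exp (th t - t * I - log (exp (th t - t * I))) = 1 := fun t => by
    rw [exp_sub, exp_log (exp_ne_zero _), div_self (exp_ne_zero _)]
  have := exp_const _ c2 (fun a a' => by rw [e1, e1]) (2 * Real.pi) 0
  have e2 : exp (th 0 - ((2 * Real.pi : ℝ) : ℂ) * I) = exp (th 0 - ((0 : ℝ) : ℂ) * I) := by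
    rw [exp_sub, exp_sub]
    push_cast
    rw [exp_two_pi_mul_I]
    simp
  simp only [hp, e2] at this
  have h3 : ((2 * Real.pi : ℝ) : ℂ) * I = 0 := by
    have h4 : ((0 : ℝ) : ℂ) * I = 0 := by simp
    rw [h4] at this
    linear_combination -this
  rcases mul_eq_zero.1 h3 with h5 | h5
  · exact Real.two_pi_pos.ne' (by exact_mod_cast h5)
  · exact I_ne_zero h5

end Pool.Agent.MP_3ee8cb_gt.D3MO
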