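import Pool.Agent.MP_3ee8cb_gt.D3MO.Sad
import Pool.Agent.MP_3ee8cb_gt.D3MO.NoLog

/-! The counting lemma. -/

namespace Pool.Agent.MP_3ee8cb_gt.D3MO

open Set Filter Topology Metric

variable {P V : Type} [MetricSpace P] [NormedAddCommGroup V] [NormedSpace ℝ V] {p : P}

theorem sad_dat {g : P → ℝ} {φ : V → P} (hV : Module.finrank ℝ V = 2) (h : Ch φ p) (h0 : g p = 0)
    (hs : Sa fun z => g (φ z)) : ∃ (ψ : ℝ × ℝ → P) (r : ℝ), 0 < r ∧ Ch ψ p ∧
      (∀ w, ‖w‖ < r → ContinuousAt ψ w ∧ (ψ w = p → w = 0)) ∧ NF (fun w => g (ψ w)) r := by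
  obtain ⟨T, r, r0, hn⟩ := hs.nf hV (by rw [h.zero, h0])
  have c := h.comp T
  obtain ⟨r', r1, hr⟩ := Metric.eventually_nhds_iff_ball.1 (c.cont.and c.inj)
  exact ⟨_, min r r', lt_min r0 r1, c, fun w hw => hr w (mem_ball_zero_iff.2
    (hw.trans_le (min_le_right _ _))), hn.1, fun w hw => hn.2 w (hw.trans_le (min_le_left _ _))⟩

theorem sect' {ψ : ℝ × ℝ → P} {g : P → ℝ} {r : ℝ} (h : Ch ψ p) (r0 : 0 < r)
    (hc : ∀ w, ‖w‖ < r → ContinuousAt ψ w) (hn : NF (fun w => g (ψ w)) r) :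
    p ∈ closure {q | -g q < 0} ∧ (∀ x, |x| < r → x ≠ 0 → -g (ψ (x, 0)) < 0) ∧
      ∀ y x, ‖(y, x)‖ < r → -g (ψ (x, y)) < 0 →
        (0 < x ∧ JoinedIn {q | -g q < 0} (ψ (x, y)) (ψ (r / 2, 0))) ∨
        (x < 0 ∧ JoinedIn {q | -g q < 0} (ψ (x, y)) (ψ (-(r / 2), 0))) :=
  sect (ψ := fun w => ψ w.swap) (g := fun q => -g q)
    (h.comp (ContinuousLinearEquiv.prodComm ℝ ℝ ℝ)) r0 (fun w hw =>
      (hc w.swap (by rwa [Prod.norm_def, max_comm] at hw)).comp continuous_swap.continuousAt)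
    hn.swap

theorem low2 {ψ : ℝ × ℝ → P} {O : Set P} {r : ℝ} {a b : P} (h : Ch ψ p) (r0 : 0 < r)
    (hj : ∀ x y, ‖(x, y)‖ < r → ψ (x, y) ∈ O →
      JoinedIn O (ψ (x, y)) a ∨ JoinedIn O (ψ (x, y)) b) :
    Low2 O p ∧ (JoinedIn O a b → Low O p) := by
  have hU := h.onto _ (ball_mem_nhds 0 r0)
  have k : ∀ q ∈ ψ '' ball 0 r ∩ O, JoinedIn O q a ∨ JoinedIn O q b := by
    rintro _ ⟨⟨⟨x, y⟩, hw, rfl⟩, hq⟩
    exact hj x y (mem_ball_zero_iff.1 hw) hq
  refine ⟨⟨_, hU, a, b, k⟩, fun j => ⟨_, hU, fun q hq q' hq' => ?_⟩⟩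
  exact ((k q hq).elim (·.trans j) id).trans ((k q' hq').elim (·.trans j) id).symm

theorem sad_low {g : P → ℝ} {φ : V → P} (hV : Module.finrank ℝ V = 2) (h : Ch φ p) (h0 : g p = 0)
    (hs : Sa fun z => g (φ z)) : (p ∈ closure {q | g q < 0} ∧ Low2 {q | g q < 0} p) ∧
      p ∈ closure {q | -g q < 0} ∧ Low2 {q | -g q < 0} p := by
  obtain ⟨ψ, r, r0, c, hc, hn⟩ := sad_dat hV h h0 hs
  obtain ⟨a1, -, a3⟩ := sect c r0 (fun w hw => (hc w hw).1) hn
  obtain ⟨b1, -, b3⟩ := sect' c r0 (fun w hw => (hc w hw).1) hn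
  exact ⟨⟨a1, (low2 c r0 fun x y hw hq => (a3 x y hw hq).imp And.right And.right).1⟩, b1,
    (low2 c r0 fun x y hw hq => (b3 y x (by rwa [nrm, max_comm]) hq).imp And.right And.right).1⟩

theorem sgn {A B : Set P} (hA : IsClosed A) (ne : A.Nonempty) {q : P} (h1 : q ∉ A) (h2 : q ∈ B) :
    0 < infDist q A - infDist q B := by
  rw [infDist_zero_of_mem h2, sub_zero]
  exact (hA.notMem_iff_infDist_pos ne).1 h1

theorem both [LocallyPathConnectedSpace P] {g : P → ℝ} {φ : V → P} (hV : Module.finrank ℝ V = 2)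
    (hL : HL P) (cg : Continuous g) (h : Ch φ p) (h0 : g p = 0) (hs : Sa fun z => g (φ z))
    {M : Set P} (fin : M.Finite) (hM : ∀ q ∈ M, q ∉ closure {q | g q < 0})
    (hl : ∀ q, q ≠ p → g q = 0 → q ∈ M ∨ (q ∈ closure {q | g q < 0} ∧ Low {q | g q < 0} q)) :
    Low {q | g q < 0} p ∨ Low {q | -g q < 0} p := by
  obtain ⟨ψ, r, r0, c, hc, hn⟩ := sad_dat hV h h0 hs
  obtain ⟨-, a2, a3⟩ := sect c r0 (fun w hw => (hc w hw).1) hn
  obtain ⟨-, b2, b3⟩ := sect' c r0 (fun w hw => (hc w hw).1) hn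
  by_contra hq
  rw [not_or] at hq
  have r2 := half_pos r0
  have na := fun j => hq.1
    ((low2 c r0 fun x y hw hq => (a3 x y hw hq).imp And.right And.right).2 j)
  have nb := fun j => hq.2 ((low2 c r0 fun x y hw hq =>
    (b3 y x (by rwa [nrm, max_comm]) hq).imp And.right And.right).2 j)
  set O : Set P := {q | g q < 0} with hO
  set W : Set P := {q | -g q < 0} with hW
  have oO : IsOpen O := isOpen_lt cg continuous_const
  have oW : IsOpen W := isOpen_lt cg.neg continuous_const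
  set A : Set P := pathComponentIn O (ψ (0, r / 2)) with hA
  set B : Set P := pathComponentIn W (ψ (r / 2, 0)) with hB
  have oB : IsOpen B := oW.pathComponentIn _
  have oB' : IsOpen (W \ B) := isOpen_iff_mem_nhds.2 fun q hq =>
    mem_of_superset (pathComponentIn_mem_nhds (oW.mem_nhds hq.1)) fun q' hq' =>
      ⟨pathComponentIn_subset hq', fun j => hq.2 (JoinedIn.trans j (JoinedIn.symm hq'))⟩
  have h2 : |r / 2| < r := by rw [abs_of_pos r2]; linarith
  have h3 : |-(r / 2)| < r := by rwa [abs_neg]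
  have m1 : ψ (0, r / 2) ∈ O ∩ A := ⟨a2 _ h2 r2.ne', JoinedIn.refl (a2 _ h2 r2.ne')⟩
  have m2 : ψ (0, -(r / 2)) ∈ O \ A := ⟨a2 _ h3 (neg_ne_zero.2 r2.ne'), na⟩
  have pW : p ∉ W := fun e => by simp [hW, h0] at e
  set C1 : Set P := closure (O ∩ A) ∪ M with hC1
  set C2 : Set P := closure (O \ A) with hC2
  have c1 : IsClosed C1 := isClosed_closure.union fin.isClosed
  have c2 : IsClosed C2 := isClosed_closure
  have n1 : C1.Nonempty := ⟨_, Or.inl (subset_closure m1)⟩
  have n2 : C2.Nonempty := ⟨_, subset_closure m2⟩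
  have dj : ∀ q, q ≠ p → q ∈ C1 → q ∈ C2 → False := by
    rintro q hq (e | e) e'
    · have lo : Low O q := by
        have k0 : g q ≤ 0 := closure_minimal (fun q (hq : q ∈ O ∩ A) => (le_of_lt hq.1 : g q ≤ 0))
          (isClosed_le cg continuous_const) e
        rcases lt_or_eq_of_le k0 with k | k
        · exact low_of_mem oO k
        · rcases hl q hq k with k' | k'
          · exact absurd (closure_mono inter_subset_left e) (hM q k')
          · exact k'.2
      exact (lo.di fun _ j _ j' => JoinedIn.trans j j').not e e'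
    · exact hM q e (closure_mono sdiff_subset e')
  let α : P → ℝ := fun q => infDist q C2 - infDist q C1
  let β : P → ℝ := fun q => infDist q Bᶜ - infDist q (W \ B)ᶜ
  have α1 : ∀ q, q ≠ p → q ∈ C1 → 0 < α q := fun q hq e => sgn c2 n2 (dj q hq e) e
  have α2 : ∀ q, q ≠ p → q ∈ C2 → α q < 0 := fun q hq e => by
    have := sgn c1 n1 (fun e' => dj q hq e' e) e
    dsimp only [α]
    linarith
  have β1 : ∀ q ∈ B, 0 < β q := fun q e =>
    sgn oB.isClosed_compl ⟨p, fun k => pW (pathComponentIn_subset k)⟩ (not_not.2 e) fun k => k.2 e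
  have β2 : ∀ q ∈ W \ B, β q < 0 := fun q e => by
    have := sgn (B := Bᶜ) oB'.isClosed_compl ⟨p, fun k => pW k.1⟩ (not_not.2 e) e.2
    dsimp only [β]
    linarith
  have β0 : ∀ q, q ∉ W → β q = 0 := fun q e => by
    dsimp only [β]
    rw [infDist_zero_of_mem (show q ∈ Bᶜ from fun k => e (pathComponentIn_subset k)),
      infDist_zero_of_mem (show q ∈ (W \ B)ᶜ from fun k => e k.1), sub_zero]
  obtain ⟨θ, cθ, eθ⟩ := hL p (fun q => (β q : ℂ) + (α q : ℂ) * Complex.I)
    (Continuous.continuousOn (by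
      have := continuous_infDist_pt C1
      have := continuous_infDist_pt C2
      have := continuous_infDist_pt Bᶜ
      have := continuous_infDist_pt (W \ B)ᶜ
      dsimp only [α, β]
      fun_prop))
    (by
      intro q hq e
      have e1 : β q = 0 := by simpa using congrArg Complex.re e
      have e2 : α q = 0 := by simpa using congrArg Complex.im e
      by_cases k : q ∈ W
      · by_cases k' : q ∈ B
        · exact (β1 q k').ne' e1
        · exact (β2 q ⟨k, k'⟩).ne e1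
      · have k1 : g q ≤ 0 := by simpa [hW] using k
        have k2 : q ∈ closure O ∨ q ∈ M := by
          rcases k1.lt_or_eq with k | k
          · exact Or.inl (subset_closure k)
          · exact (hl q hq k).symm.imp And.left id
        rcases k2 with k | k
        · rw [← inter_union_sdiff O A, closure_union] at k
          rcases k with k | k
          · exact (α1 q hq (Or.inl k)).ne' e2
          · exact (α2 q hq k).ne e2
        · exact (α1 q hq (Or.inr k)).ne' e2)
  let w : ℝ → ℝ × ℝ := fun t => (r / 2 * Real.cos t, r / 2 * Real.sin t)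
  have cw : Continuous w := by fun_prop
  have nw : ∀ t, ‖w t‖ < r := fun t => by
    rw [nrm, abs_mul, abs_mul, abs_of_pos r2, max_lt_iff]
    constructor <;> nlinarith [Real.abs_cos_le_one t, Real.abs_sin_le_one t]
  have np : ∀ t, ψ (w t) ≠ p := fun t e => by
    have e0 := (hc _ (nw t)).2 e
    have e1 : Real.cos t = 0 := (mul_eq_zero.1 (congrArg Prod.fst e0)).resolve_left r2.ne'
    have e2 : Real.sin t = 0 := (mul_eq_zero.1 (congrArg Prod.snd e0)).resolve_left r2.ne'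
    have := Real.cos_sq_add_sin_sq t
    rw [e1, e2] at this
    norm_num at this
  refine noLog (fun t => θ (ψ (w t))) (cθ.comp_continuous (continuous_iff_continuousAt.2 fun t =>
    (hc _ (nw t)).1.comp cw.continuousAt) np) (by simp [w]) fun t l l0 e => ?_
  rw [eθ _ (np t), Complex.exp_mul_I, ← Complex.ofReal_cos, ← Complex.ofReal_sin] at e
  have e1 : β (ψ (w t)) = -(l * Real.cos t) := by
    simpa [-Complex.ofReal_cos, -Complex.ofReal_sin] using congrArg Complex.re e
  have e2 : α (ψ (w t)) = -(l * Real.sin t) := by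
    simpa [-Complex.ofReal_cos, -Complex.ofReal_sin] using congrArg Complex.im e
  by_cases k : ψ (w t) ∈ W
  · rcases b3 _ _ (by have := nw t; rwa [nrm, max_comm] at this) k with ⟨x, j⟩ | ⟨x, j⟩
    · have := β1 _ (JoinedIn.symm j)
      nlinarith [mul_pos l0 ((mul_pos_iff_of_pos_left r2).1 x)]
    · have := β2 _ ⟨k, fun j' => nb (JoinedIn.trans j' j)⟩
      nlinarith [mul_pos l0 (neg_pos.2 (neg_of_mul_neg_right x r2.le))]
  · have c0 : Real.cos t = 0 := by
      rw [β0 _ k] at e1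
      exact (mul_eq_zero.1 (neg_eq_zero.1 e1.symm)).resolve_left l0.ne'
    have s0 : Real.sin t ≠ 0 := fun e => by
      have := Real.cos_sq_add_sin_sq t
      rw [c0, e] at this
      norm_num at this
    have k0 : g (ψ (w t)) < 0 := by
      have := nw t
      dsimp only [w] at this ⊢
      rw [c0, mul_zero] at this ⊢
      exact a2 _ ((le_max_right _ _).trans_lt this) (mul_ne_zero r2.ne' s0)
    rcases a3 _ _ (nw t) k0 with ⟨y, j⟩ | ⟨y, j⟩
    · have := α1 _ (np t) (Or.inl (subset_closure ⟨k0, JoinedIn.symm j⟩))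
      nlinarith [mul_pos l0 ((mul_pos_iff_of_pos_left r2).1 y)]
    · have := α2 _ (np t) (subset_closure ⟨k0, fun j' => na (JoinedIn.trans j' j)⟩)
      nlinarith [mul_pos l0 (neg_pos.2 (neg_of_mul_neg_right y r2.le))]

theorem not_clos {g : P → ℝ} (h0 : g p = 0) (h : ∀ᶠ q in 𝓝[≠] p, 0 < g q) :
    p ∉ closure {q | g q < 0} := by
  intro e
  obtain ⟨q, h1, h2⟩ := mem_closure_iff_nhds.1 e _ (eventually_nhdsWithin_iff.1 h)
  by_cases k : q = p
  · exact absurd (k ▸ h2 : g p < 0) (h0 ▸ lt_irrefl _)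
  · exact lt_asymm (h1 k) h2

open Classical in
theorem sMorse : SMorse := by
  intro P V _ _ _ _ _ _ hV hL g Mn Mx Sd d
  have lo : ∀ t p, g t p = 0 → (t, p) ∈ Mn ∨ (p ∈ closure {p | g t p < 0} ∧
      (Low {p | g t p < 0} p ∨ ((t, p) ∈ Sd ∧ Low2 {p | g t p < 0} p))) := by
    intro t p e
    obtain ⟨φ, c, k | k | k | k⟩ := d.loc t p e
    · exact Or.inr ((low_rg c e k).imp_right Or.inl)
    · exact Or.inl k
    · exact Or.inr ((low_max hV c e (d.mx _ k).2.1).imp_right Or.inl)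
    · exact Or.inr ((sad_low hV c e k.2).1.imp_right fun j => Or.inr ⟨k.1, j⟩)
  have hm : ∀ a ∈ Mn, a.2 ∉ closure {p | g a.1 p < 0} := fun a ha =>
    not_clos (d.mn a ha).1 (d.mn a ha).2.1
  have c1 : Mn.card ≤
      1 + (Sd.filter fun a => g a.1 a.2 = 0 ∧ ¬Low {p | g a.1 p < 0} a.2).card := by
    rcases Mn.eq_empty_or_nonempty with e | ⟨a0, h0⟩
    · simp [e]
    have ij : InjOn Prod.snd (Mn : Set (ℝ × P)) := fun a ha b hb e => by
      refine Prod.ext (le_antisymm (not_lt.1 fun k => ?_) (not_lt.1 fun k => ?_)) e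
      · exact ((d.mn b hb).2.2 _ k).ne (e ▸ (d.mn a ha).1)
      · exact ((d.mn a ha).2.2 _ k).ne (e ▸ (d.mn b hb).1)
    rw [← Finset.card_image_of_injOn ij]
    refine half d.cp d.ct d.anti Mn Sd hm d.sd lo _ a0.2 (Finset.mem_image_of_mem _ h0) ?_ ?_ ?_
    · intro z hz _
      obtain ⟨a, ha, rfl⟩ := Finset.mem_image.1 hz
      exact ⟨a.1, (d.mn a ha).1.ge⟩
    · intro z hz τ e k
      obtain ⟨a, ha, rfl⟩ := Finset.mem_image.1 hz
      have : τ = a.1 := le_antisymm (not_lt.1 fun j => ((d.mn a ha).2.2 _ j).ne e)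
        (not_lt.1 fun j => (k _ j).ne (d.mn a ha).1)
      rwa [this]
    · intro z hz
      obtain ⟨a, ha, rfl⟩ := Finset.mem_image.1 hz
      obtain ⟨t, -, j⟩ := path_time d.cp d.anti (T := univ)
        ((d.con a ha a0 h0).mono fun p ⟨t, ht⟩ => ⟨t, trivial, ht⟩)
      exact ⟨t, j⟩
  let n : ℝ × P → ℝ × P := fun a => (-a.1, a.2)
  have nn : ∀ a, n (n a) = a := fun a => by simp [n]
  have ni : Function.Injective n := Function.LeftInverse.injective nn
  have mi : ∀ (S : Finset (ℝ × P)) a, a ∈ S.image n ↔ n a ∈ S := fun S a =>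
    ⟨fun h => by
      obtain ⟨b, hb, rfl⟩ := Finset.mem_image.1 h
      rwa [nn], fun h => Finset.mem_image.2 ⟨_, h, nn a⟩⟩
  obtain ⟨e0, he⟩ := d.pos
  obtain ⟨t0, ht0⟩ := d.ini
  have ij : InjOn Prod.snd (Mx : Set (ℝ × P)) := fun a ha b hb e => by
    refine Prod.ext (le_antisymm (not_lt.1 fun k => ?_) (not_lt.1 fun k => ?_)) e
    · exact ((d.mx a ha).2.2 _ k).ne' (e ▸ (d.mx b hb).1)
    · exact ((d.mx b hb).2.2 _ k).ne' (e ▸ (d.mx a ha).1)
  have ne : e0 ∉ Mx.image Prod.snd := fun k => by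
    obtain ⟨a, ha, e⟩ := Finset.mem_image.1 k
    exact (he a.1).ne' (e ▸ (d.mx a ha).1)
  have c2 := half (g := fun t p => -g (-t) p) (fun t => (d.cp _).neg)
    (fun p => ((d.ct p).comp continuous_neg).neg)
    (fun p s t h => neg_le_neg (d.anti p (neg_le_neg h))) (Mx.image n) (Sd.image n)
    (fun a ha => by
      have k := d.mx _ ((mi _ _).1 ha)
      exact not_clos (g := fun p => -g (-a.1) p) (neg_eq_zero.2 k.1)
        (k.2.1.mono fun q hq => neg_pos.2 hq))
    (fun a ha b hb e => ni (d.sd _ ((mi _ _).1 ha) _ ((mi _ _).1 hb) (congrArg Neg.neg e)))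
    (fun t p e => by
      have e' := neg_eq_zero.1 e
      obtain ⟨φ, c, k | k | k | k⟩ := d.loc _ p e'
      · exact Or.inr ((low_rg (g := fun p => -g (-t) p) c e k.neg).imp_right Or.inl)
      · exact Or.inr ((low_max (g := fun p => -g (-t) p) hV c e
          ((d.mn _ k).2.1.mono fun q hq => neg_neg_of_pos hq)).imp_right Or.inl)
      · exact Or.inl ((mi _ _).2 k)
      · exact Or.inr ((sad_low hV c e' k.2).2.imp_right fun j => Or.inr ⟨(mi _ _).2 k.1, j⟩))
    (insert e0 (Mx.image Prod.snd)) e0 (Finset.mem_insert_self _ _)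
    (fun z hz k => by
      obtain ⟨a, ha, rfl⟩ := Finset.mem_image.1 ((Finset.mem_insert.1 hz).resolve_left k)
      exact ⟨-a.1, by simp [(d.mx a ha).1]⟩)
    (fun z hz τ e k => by
      have e' := neg_eq_zero.1 e
      rcases Finset.mem_insert.1 hz with rfl | hz
      · exact absurd e' (he _).ne'
      obtain ⟨a, ha, rfl⟩ := Finset.mem_image.1 hz
      have : -τ = a.1 := le_antisymm (not_lt.1 fun j => (k (-a.1) (by linarith)).ne (by
        simp [(d.mx a ha).1])) (not_lt.1 fun j => ((d.mx a ha).2.2 _ j).ne' e')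
      refine (mi _ _).2 ?_
      dsimp only [n]
      rwa [this])
    (fun z _ => ⟨-t0, (PathConnectedSpace.joined z e0).somePath, fun s => by simp [ht0]⟩)
  rw [Finset.card_insert_of_notMem ne, Finset.card_image_of_injOn ij] at c2
  have c3 := Finset.card_union_of_disjoint (s := Sd.filter fun a =>
      g a.1 a.2 = 0 ∧ ¬Low {p | g a.1 p < 0} a.2) (t := ((Sd.image n).filter fun a =>
        -g (-a.1) a.2 = 0 ∧ ¬Low {p | -g (-a.1) p < 0} a.2).image n) (by
    rw [Finset.disjoint_left]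
    intro a h1 h2
    obtain ⟨a1, a2, a3⟩ := Finset.mem_filter.1 h1
    have a4 := (Finset.mem_filter.1 ((mi _ _).1 h2)).2.2
    simp only [n, neg_neg] at a4
    obtain ⟨φ, c, k | k | k | k⟩ := d.loc _ _ a2
    · exact a3 (low_rg c a2 k).2
    · exact a4 (low_max (g := fun p => -g a.1 p) hV c (neg_eq_zero.2 a2)
        ((d.mn _ k).2.1.mono fun q hq => neg_neg_of_pos hq)).2
    · exact a3 (low_max hV c a2 (d.mx _ k).2.1).2
    · refine (both hV hL (d.cp _) c a2 k.2 (M := {p | (a.1, p) ∈ Mn})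
        (Mn.finite_toSet.preimage (f := fun p => (a.1, p)) fun _ _ _ _ e => congrArg Prod.snd e)
        (fun q hq => hm _ hq) fun q hq e => ?_).elim a3 a4
      exact (lo _ q e).imp_right fun j => ⟨j.1, j.2.resolve_right fun j' =>
        hq (congrArg Prod.snd (d.sd _ j'.1 _ a1 rfl))⟩)
  rw [Finset.card_image_of_injective _ ni] at c3
  have c4 := Finset.card_le_card (show (Sd.filter fun a =>
      g a.1 a.2 = 0 ∧ ¬Low {p | g a.1 p < 0} a.2) ∪ ((Sd.image n).filter fun a =>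
        -g (-a.1) a.2 = 0 ∧ ¬Low {p | -g (-a.1) p < 0} a.2).image n ⊆ Sd from
    Finset.union_subset (Finset.filter_subset _ _) fun a ha => by
      have := (mi _ _).1 (Finset.mem_filter.1 ((mi _ _).1 ha)).1
      rwa [nn] at this)
  omega

end Pool.Agent.MP_3ee8cb_gt.D3MO
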