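import Mathlib

/-! Counting critical zeros of a monotone family of functions on a sphere: statements. -/

namespace Pool.Agent.MP_3ee8cb_gt.D3MO

open Set Filter Topology Metric

/-- Maps to the punctured complex plane defined off one point have a continuous logarithm. -/
def HL (P : Type) [TopologicalSpace P] : Prop := ∀ (s : P) (Ψ : P → ℂ), ContinuousOn Ψ {s}ᶜ →
  (∀ p, p ≠ s → Ψ p ≠ 0) → ∃ θ : P → ℂ, ContinuousOn θ {s}ᶜ ∧ ∀ p, p ≠ s → Complex.exp (θ p) = Ψ p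

variable {P V : Type} [TopologicalSpace P] [NormedAddCommGroup V] [NormedSpace ℝ V]

/-- A weak chart centred at `p`. -/
structure Ch (φ : V → P) (p : P) : Prop where
  zero : φ 0 = p
  cont : ∀ᶠ z in 𝓝 (0 : V), ContinuousAt φ z
  inj : ∀ᶠ z in 𝓝 (0 : V), φ z = p → z = 0
  onto : ∀ U ∈ 𝓝 (0 : V), φ '' U ∈ 𝓝 p

/-- `0` is a regular point of `f`. -/
def Rg (f : V → ℝ) : Prop := ∃ D : V → V →L[ℝ] ℝ, (∀ᶠ z in 𝓝 (0 : V), HasFDerivAt f (D z) z) ∧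
  ContinuousAt D 0 ∧ D 0 ≠ 0

/-- `0` is a critical point of `f` with Hessian `H`. -/
def Cr (f : V → ℝ) (H : V →L[ℝ] V →L[ℝ] ℝ) : Prop := ∃ D : V → V →L[ℝ] ℝ,
  (∀ᶠ z in 𝓝 (0 : V), HasFDerivAt f (D z) z) ∧ D 0 = 0 ∧ HasFDerivAt D H 0

/-- `0` is a saddle point of `f`. -/
def Sa (f : V → ℝ) : Prop := ∃ H u v, Cr f H ∧ 0 < H u u ∧ H v v < 0

/-- The hypotheses of the counting lemma. -/
structure Dat (V : Type) [NormedAddCommGroup V] [NormedSpace ℝ V] (g : ℝ → P → ℝ)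
    (Mn Mx Sd : Finset (ℝ × P)) : Prop where
  cp : ∀ t, Continuous (g t)
  ct : ∀ p, Continuous fun t => g t p
  anti : ∀ p, Antitone fun t => g t p
  mn : ∀ a ∈ Mn, g a.1 a.2 = 0 ∧ (∀ᶠ q in 𝓝[≠] a.2, 0 < g a.1 q) ∧ ∀ t, a.1 < t → g t a.2 < 0
  mx : ∀ a ∈ Mx, g a.1 a.2 = 0 ∧ (∀ᶠ q in 𝓝[≠] a.2, g a.1 q < 0) ∧ ∀ t, t < a.1 → 0 < g t a.2
  sd : ∀ a ∈ Sd, ∀ b ∈ Sd, a.1 = b.1 → a = b
  loc : ∀ t p, g t p = 0 → ∃ φ : V → P, Ch φ p ∧ (Rg (fun z => g t (φ z)) ∨ (t, p) ∈ Mn ∨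
    (t, p) ∈ Mx ∨ ((t, p) ∈ Sd ∧ Sa fun z => g t (φ z)))
  con : ∀ a ∈ Mn, ∀ b ∈ Mn, JoinedIn {p | ∃ t, g t p < 0} a.2 b.2
  pos : ∃ e, ∀ t, 0 < g t e
  ini : ∃ t, ∀ p, 0 < g t p

/-- The counting lemma. -/
def SMorse : Prop := ∀ (P V : Type) [MetricSpace P] [CompactSpace P] [LocallyPathConnectedSpace P]
  [PathConnectedSpace P] [NormedAddCommGroup V] [NormedSpace ℝ V], Module.finrank ℝ V = 2 → HL P →
  ∀ (g : ℝ → P → ℝ) (Mn Mx Sd : Finset (ℝ × P)), Dat V g Mn Mx Sd →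
    Mn.card + Mx.card ≤ 1 + Sd.card

/-- A definite Hessian gives a strict local extremum. -/
def SDef : Prop := ∀ (P V : Type) [TopologicalSpace P] [NormedAddCommGroup V] [NormedSpace ℝ V]
  [FiniteDimensional ℝ V] (f : P → ℝ) (φ : V → P) (p : P) (H : V →L[ℝ] V →L[ℝ] ℝ), Ch φ p →
  Cr (fun z => f (φ z)) H → ((∀ v, v ≠ 0 → 0 < H v v) → ∀ᶠ q in 𝓝[≠] p, f p < f q) ∧
    ((∀ v, v ≠ 0 → H v v < 0) → ∀ᶠ q in 𝓝[≠] p, f q < f p)

/-- The two zeros of `ν` are joined in the open set `O` when `ν` is null homotopic off `O`. -/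
def STz : Prop := ∀ (P V : Type) [MetricSpace P] [LocallyPathConnectedSpace P]
  [NormedAddCommGroup V] [NormedSpace ℝ V], Module.finrank ℝ V = 2 → HL P →
  ∀ (O : Set P) (ν : P → ℂ) (a b : P) (φ : V → P) (L : V →L[ℝ] ℂ) (H : ℝ × P → ℂ) (c : ℂ),
    IsOpen O → Continuous ν → a ∈ O → b ∈ O → (∀ p, ν p = 0 → p = a ∨ p = b) → ν b = 0 →
    Ch φ b → HasFDerivAt (fun z => ν (φ z)) L 0 → Function.Injective L →
    ContinuousOn H (Icc 0 1 ×ˢ Oᶜ) → (∀ s ∈ Icc (0 : ℝ) 1, ∀ p, p ∉ O → H (s, p) ≠ 0) →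
    (∀ p, p ∉ O → H (0, p) = c) → (∀ p, p ∉ O → H (1, p) = ν p) → JoinedIn O a b

/-- The two dimensional sphere. -/
abbrev S2 := sphere (0 : EuclideanSpace ℝ (Fin 3)) 1

/-- The sphere satisfies the topological hypotheses. -/
def SSph : Prop := HL S2 ∧ LocallyPathConnectedSpace S2 ∧ PathConnectedSpace S2

/-- Central projection from a tangent plane is a weak chart. -/
def SGno : Prop := ∀ (V : Type) [NormedAddCommGroup V] [NormedSpace ℝ V], Module.finrank ℝ V = 2 →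
  ∀ (p : S2) (ι : V →L[ℝ] EuclideanSpace ℝ (Fin 3)) (φ : V → S2), Function.Injective ι →
    (∀ z, inner ℝ (p : EuclideanSpace ℝ (Fin 3)) (ι z) = 0) →
    (∀ z, (φ z : EuclideanSpace ℝ (Fin 3)) = ‖p.1 + ι z‖⁻¹ • (p.1 + ι z)) → Ch φ p

end Pool.Agent.MP_3ee8cb_gt.D3MO
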