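import Pool.Agent.MP_3ee8cb_gt.D3MO.Half

/-! Local shape of the sublevel set at regular points and at strict maxima. -/

namespace Pool.Agent.MP_3ee8cb_gt.D3MO

open Set Filter Topology Metric

theorem dec {h : ℝ → ℝ} {a b : ℝ} (hab : a < b) (hd : ∀ s ∈ Icc a b, ∃ d, HasDerivAt h d s ∧
    (a < s → d < 0)) : h b < h a := by
  refine strictAntiOn_of_deriv_neg (convex_Icc a b) (fun s hs => ?_) (fun s hs => ?_)
    (left_mem_Icc.2 hab.le) (right_mem_Icc.2 hab.le) hab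
  · obtain ⟨d, h1, -⟩ := hd s hs
    exact h1.continuousAt.continuousWithinAt
  · rw [interior_Icc] at hs
    obtain ⟨d, h1, h2⟩ := hd s (Ioo_subset_Icc_self hs)
    exact h1.deriv ▸ h2 hs.1

variable {P V : Type} [MetricSpace P] [NormedAddCommGroup V] [NormedSpace ℝ V] {φ : V → P} {p : P}
  {O : Set P}

theorem jn {S : Set V} {a b : V} (h : JoinedIn S a b) (hS : ∀ z ∈ S, ContinuousAt φ z ∧ φ z ∈ O) :
    JoinedIn O (φ a) (φ b) :=
  (h.map_continuousOn fun z hz => (hS z hz).1.continuousWithinAt).mono (by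
    rintro _ ⟨z, hz, rfl⟩
    exact (hS z hz).2)

theorem jn_line {a v : V} {s : ℝ} (hs : 0 ≤ s)
    (hS : ∀ l ∈ Icc 0 s, ContinuousAt φ (a + l • v) ∧ φ (a + l • v) ∈ O) :
    JoinedIn O (φ a) (φ (a + s • v)) := by
  refine jn (JoinedIn.of_segment_subset Subset.rfl) ?_
  rintro _ ⟨x, y, hx, hy, hxy, rfl⟩
  have e : x • a + y • (a + s • v) = a + (y * s) • v := by
    rw [smul_add, ← add_assoc, ← add_smul, hxy, one_smul, mul_smul]
  rw [e]
  exact hS _ ⟨mul_nonneg hy hs, by nlinarith⟩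

theorem Ch.clos (h : Ch φ p) (v : V) (hv : ∀ᶠ l in 𝓝[>] (0 : ℝ), φ (l • v) ∈ O) :
    p ∈ closure O := by
  refine mem_closure_of_tendsto ?_ hv
  have h1 : Tendsto (fun l : ℝ => l • v) (𝓝[>] 0) (𝓝 0) := by
    have : Continuous fun l : ℝ => l • v := by fun_prop
    simpa using (this.tendsto 0).mono_left nhdsWithin_le_nhds
  exact h.zero ▸ h.cont.self_of_nhds.tendsto.comp h1

theorem Rg.neg {f : V → ℝ} (h : Rg f) : Rg fun z => -f z := by
  obtain ⟨D, h1, h2, h3⟩ := h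
  exact ⟨fun z => -D z, h1.mono fun z hz => hz.neg, h2.neg, neg_ne_zero.2 h3⟩

theorem low_rg {g : P → ℝ} (h : Ch φ p) (h0 : g p = 0) (hr : Rg fun z => g (φ z)) :
    p ∈ closure {q | g q < 0} ∧ Low {q | g q < 0} p := by
  obtain ⟨D, h1, h2, h3⟩ := hr
  obtain ⟨v, hv⟩ : ∃ v, D 0 v < 0 := by
    obtain ⟨v, hv⟩ : ∃ v, D 0 v ≠ 0 := by
      by_contra hn
      exact h3 (ContinuousLinearMap.ext fun v => not_not.1 fun e => hn ⟨v, e⟩)
    rcases hv.lt_or_gt with e | e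
    · exact ⟨v, e⟩
    · exact ⟨-v, by rw [map_neg]; exact neg_neg_of_pos e⟩
  have h4 : ∀ᶠ z in 𝓝 (0 : V), D z v < 0 :=
    (h2.clm_apply continuousAt_const).eventually_lt continuousAt_const hv
  obtain ⟨r, r0, hr⟩ := Metric.eventually_nhds_iff_ball.1 (h1.and (h4.and h.cont))
  have n0 := norm_nonneg v
  set s := r / (2 * (‖v‖ + 1)) with hs
  have s0 : 0 < s := by positivity
  have sv : s * ‖v‖ < r / 2 := by
    rw [hs, div_mul_eq_mul_div, div_lt_div_iff₀ (by positivity) (by norm_num)]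
    nlinarith
  have mem : ∀ z ∈ ball (0 : V) (r / 2), ∀ l ∈ Icc 0 s, z + l • v ∈ ball (0 : V) r := by
    intro z hz l hl
    rw [mem_ball_zero_iff] at hz ⊢
    have := norm_add_le z (l • v)
    rw [norm_smul, Real.norm_eq_abs, abs_of_nonneg hl.1] at this
    nlinarith [hl.2]
  have de : ∀ z ∈ ball (0 : V) (r / 2), ∀ l ∈ Ioc 0 s, g (φ (z + l • v)) < g (φ z) := by
    intro z hz l hl
    have := dec (h := fun l => g (φ (z + l • v))) hl.1 fun m hm => by
      have hm' := hr _ (mem z hz m ⟨hm.1, hm.2.trans hl.2⟩)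
      have d1 : HasDerivAt (fun m : ℝ => z + m • v) v m := by
        simpa using ((hasDerivAt_id m).smul_const v).const_add z
      exact ⟨_, HasFDerivAt.comp_hasDerivAt (l := fun z => g (φ z)) (f := fun m : ℝ => z + m • v) m
        hm'.1 d1, fun _ => hm'.2.1⟩
    simpa using this
  have z0 : (0 : V) ∈ ball (0 : V) (r / 2) := mem_ball_self (by positivity)
  have ax : ∀ l ∈ Ioc 0 s, g (φ (l • v)) < 0 := fun l hl => by
    simpa [h.zero, h0] using de 0 z0 l hl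
  refine ⟨h.clos v (by filter_upwards [Ioc_mem_nhdsGT s0] with l hl using ax l hl), ?_⟩
  have b1 : s • v ∈ ball (0 : V) r := by simpa using mem 0 z0 s ⟨s0.le, le_rfl⟩
  have e1 : ∀ᶠ z in 𝓝 (s • v), g (φ z) < 0 ∧ z ∈ ball (0 : V) r :=
    ((hr _ b1).1.continuousAt.eventually_lt continuousAt_const (ax s ⟨s0, le_rfl⟩)).and
      (isOpen_ball.mem_nhds b1)
  obtain ⟨ρ, ρ0, hρ⟩ := Metric.eventually_nhds_iff_ball.1 e1
  have key : ∀ z ∈ ball (0 : V) (min ρ (r / 2)), g (φ z) < 0 →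
      JoinedIn {q | g q < 0} (φ z) (φ (s • v)) := by
    intro z hz hg
    have hz' := ball_subset_ball (min_le_right _ _) hz
    refine (jn_line s0.le fun l hl => ⟨(hr _ (mem z hz' l hl)).2.2, ?_⟩).trans
      (jn (S := ball (s • v) ρ) (JoinedIn.of_segment_subset ((convex_ball _ _).segment_subset ?_
        (mem_ball_self ρ0))) fun w hw => ⟨(hr _ (hρ w hw).2).2.2, (hρ w hw).1⟩)
    · rcases hl.1.eq_or_lt with e | e
      · simpa [← e] using hg
      · exact (de z hz' l ⟨e, hl.2⟩).trans hg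
    · simpa using ball_subset_ball (min_le_left _ _) hz
  refine ⟨_, h.onto _ (ball_mem_nhds 0 (lt_min ρ0 (half_pos r0))), ?_⟩
  rintro _ ⟨⟨z, hz, rfl⟩, hg⟩ _ ⟨⟨z', hz', rfl⟩, hg'⟩
  exact (key z hz hg).trans (key z' hz' hg').symm

theorem low_max {g : P → ℝ} (hV : Module.finrank ℝ V = 2) (h : Ch φ p) (h0 : g p = 0)
    (hm : ∀ᶠ q in 𝓝[≠] p, g q < 0) : p ∈ closure {q | g q < 0} ∧ Low {q | g q < 0} p := by
  have h1 : ∀ᶠ z in 𝓝 (0 : V), φ z ≠ p → g (φ z) < 0 :=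
    (h.zero ▸ h.cont.self_of_nhds.tendsto).eventually (eventually_nhdsWithin_iff.1 hm)
  obtain ⟨r, r0, hr⟩ := Metric.eventually_nhds_iff_ball.1 (h1.and (h.inj.and h.cont))
  have ok : ∀ z : V, ‖z‖ < r → z ≠ 0 → ContinuousAt φ z ∧ φ z ∈ {q | g q < 0} := fun z hz hz0 =>
    have := hr z (mem_ball_zero_iff.2 hz)
    ⟨this.2.2, this.1 fun e => hz0 (this.2.1 e)⟩
  haveI : Module.Finite ℝ V := Module.finite_of_finrank_pos (by omega)
  have rk : 1 < Module.rank ℝ V := by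
    rw [← Module.finrank_eq_rank, hV]
    norm_num
  have pc := isPathConnected_sphere rk (0 : V) (half_pos r0).le
  constructor
  · obtain ⟨v, hv⟩ := pc.nonempty
    rw [mem_sphere_zero_iff_norm] at hv
    refine h.clos v ?_
    filter_upwards [Ioc_mem_nhdsGT one_pos] with l hl
    refine (ok _ ?_ (smul_ne_zero hl.1.ne' (norm_pos_iff.1 (hv ▸ half_pos r0)))).2
    rw [norm_smul, Real.norm_eq_abs, abs_of_pos hl.1, hv]
    nlinarith [hl.2]
  · have key : ∀ z ∈ ball (0 : V) (r / 2), g (φ z) < 0 → ∃ w ∈ sphere (0 : V) (r / 2),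
        JoinedIn {q | g q < 0} (φ z) (φ w) := by
      intro z hz hg
      rw [mem_ball_zero_iff] at hz
      have z0 : z ≠ 0 := fun e => by
        rw [e, h.zero, h0] at hg
        exact lt_irrefl _ hg
      have n0 := norm_pos_iff.2 z0
      have nn : ∀ l : ℝ, 0 ≤ l → ‖z + l • z‖ = (1 + l) * ‖z‖ := fun l hl => by
        rw [show z + l • z = (1 + l) • z by rw [add_smul, one_smul], norm_smul, Real.norm_eq_abs,
          abs_of_nonneg (by linarith)]
      have s0 : 0 ≤ r / 2 / ‖z‖ - 1 := by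
        rw [sub_nonneg, le_div_iff₀ n0]
        linarith
      have e : (1 + (r / 2 / ‖z‖ - 1)) * ‖z‖ = r / 2 := by field_simp; ring
      refine ⟨_, ?_, jn_line (v := z) s0 fun l hl => ok _ ?_ ?_⟩
      · rw [mem_sphere_zero_iff_norm, nn _ s0, e]
      · rw [nn _ hl.1]
        nlinarith [hl.2]
      · rw [← norm_pos_iff, nn _ hl.1]
        have := hl.1
        positivity
    refine ⟨_, h.onto _ (ball_mem_nhds 0 (half_pos r0)), ?_⟩
    rintro _ ⟨⟨z, hz, rfl⟩, hg⟩ _ ⟨⟨z', hz', rfl⟩, hg'⟩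
    obtain ⟨w, hw, j⟩ := key z hz hg
    obtain ⟨w', hw', j'⟩ := key z' hz' hg'
    refine (j.trans (jn (pc.joinedIn w hw w' hw') fun x hx => ?_)).trans j'.symm
    rw [mem_sphere_zero_iff_norm] at hx
    exact ok x (by linarith) (norm_pos_iff.1 (hx ▸ half_pos r0))

end Pool.Agent.MP_3ee8cb_gt.D3MO
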