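import Pool.Agent.MP_3ee8cb_gt.D3MO.Loc

/-! Local shape of a saddle. -/

namespace Pool.Agent.MP_3ee8cb_gt.D3MO

open Set Filter Topology Metric

/-- The gradient of `F` is close to `(x, -y)`. -/
def NF (F : ℝ × ℝ → ℝ) (r : ℝ) : Prop := F 0 = 0 ∧ ∀ w : ℝ × ℝ, ‖w‖ < r →
  ∃ L : ℝ × ℝ →L[ℝ] ℝ, HasFDerivAt F L w ∧ |L (1, 0) - w.1| ≤ ‖w‖ / 10 ∧ |L (0, 1) + w.2| ≤ ‖w‖ / 10

theorem NF.swap {F : ℝ × ℝ → ℝ} {r : ℝ} (h : NF F r) : NF (fun w => -F w.swap) r := by
  refine ⟨by simpa using h.1, fun w hw => ?_⟩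
  have e : ‖w.swap‖ = ‖w‖ := by simp [Prod.norm_def, max_comm]
  obtain ⟨L, h1, h2, h3⟩ := h.2 w.swap (e ▸ hw)
  refine ⟨-(L.comp (ContinuousLinearEquiv.prodComm ℝ ℝ ℝ : ℝ × ℝ →L[ℝ] ℝ × ℝ)),
    (h1.comp w (ContinuousLinearEquiv.prodComm ℝ ℝ ℝ).hasFDerivAt).neg, ?_, ?_⟩
  · rw [← e, ← abs_neg]
    simpa [add_comm] using h3
  · rw [← e, ← abs_neg]
    simpa [sub_eq_add_neg, add_comm] using h2

theorem lin (L : ℝ × ℝ →L[ℝ] ℝ) (x y : ℝ) : L (x, y) = x * L (1, 0) + y * L (0, 1) := by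
  rw [← smul_eq_mul, ← smul_eq_mul, ← map_smul, ← map_smul, ← map_add]
  simp

theorem nrm (x y : ℝ) : ‖(x, y)‖ = max |x| |y| := rfl

theorem NF.cone {F : ℝ × ℝ → ℝ} {r x y : ℝ} (h : NF F r) (hw : ‖(x, y)‖ < r) (hy : y ≠ 0)
    (hx : |x| ≤ |y| / 2) : F (x, y) < 0 := by
  have y0 := abs_pos.2 hy
  have x0 := abs_nonneg x
  have := dec (h := fun s => F (s * x, s * y)) one_pos fun s hs => by
    have n : ‖(s * x, s * y)‖ = s * |y| := by
      rw [nrm, abs_mul, abs_mul, abs_of_nonneg hs.1, max_eq_right (by nlinarith [hs.1])]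
    obtain ⟨L, h1, h2, h3⟩ := h.2 (s * x, s * y) (by
      rw [nrm, max_eq_right (by linarith)] at hw
      rw [n]
      nlinarith [hs.2])
    have d1 : HasDerivAt (fun s : ℝ => (s * x, s * y)) (x, y) s :=
      (hasDerivAt_mul_const x).prodMk (hasDerivAt_mul_const y)
    refine ⟨_, h1.comp_hasDerivAt s d1, fun s0 => ?_⟩
    rw [lin]
    rw [n] at h2 h3
    have a1 := (le_abs_self _).trans ((abs_mul x (L (1, 0) - s * x)).le.trans
      (mul_le_mul_of_nonneg_left h2 x0))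
    have a2 := (le_abs_self _).trans ((abs_mul y (L (0, 1) + s * y)).le.trans
      (mul_le_mul_of_nonneg_left h3 y0.le))
    have a3 := sq_abs x
    have a4 := sq_abs y
    have a5 : s * |x| ^ 2 ≤ s * (|y| / 2) ^ 2 :=
      mul_le_mul_of_nonneg_left (pow_le_pow_left₀ x0 hx 2) s0.le
    have a6 : s * (|x| * |y|) ≤ s * (|y| / 2 * |y|) :=
      mul_le_mul_of_nonneg_left (mul_le_mul_of_nonneg_right hx y0.le) s0.le
    have a7 : 0 < s * |y| ^ 2 := by positivity
    rw [a3] at a5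
    nlinarith
  simpa [show ((0 : ℝ), (0 : ℝ)) = 0 from rfl, h.1] using this

theorem NF.hor {F : ℝ × ℝ → ℝ} {r x y : ℝ} (h : NF F r) (hw : ‖(x, y)‖ < r) (hF : F (x, y) < 0) :
    y ≠ 0 ∧ ∀ s ∈ Icc (0 : ℝ) 1, F (s * x, y) < 0 := by
  have x0 := abs_nonneg x
  have hy : y ≠ 0 := by
    rintro rfl
    by_cases e : x = 0
    · rw [e, show ((0 : ℝ), (0 : ℝ)) = 0 from rfl, h.1] at hF
      exact lt_irrefl _ hF
    · have := h.swap.cone (x := 0) (y := x) (by rwa [nrm, max_comm]) e (by simp; positivity)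
      simp only [Prod.swap_prod_mk] at this
      linarith
  have nb : ∀ s ∈ Icc (0 : ℝ) 1, ‖(s * x, y)‖ < r := fun s hs => by
    rw [nrm, max_lt_iff] at hw ⊢
    rw [abs_mul, abs_of_nonneg hs.1]
    exact ⟨by nlinarith [hs.2, hw.1], hw.2⟩
  refine ⟨hy, fun s hs => ?_⟩
  by_contra hn
  have b : |y| / 2 < s * |x| := by
    by_contra hq
    exact hn (h.cone (nb s hs) hy (by rw [abs_mul, abs_of_nonneg hs.1]; exact not_lt.1 hq))
  have y0 := abs_pos.2 hy
  rcases hs.2.eq_or_lt with e | e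
  · rw [e, one_mul] at hn
    exact hn hF
  have := dec (h := fun s => -F (s * x, y)) e fun m hm => by
    have m0 : 0 ≤ m := hs.1.trans hm.1
    obtain ⟨L, h1, h2, -⟩ := h.2 (m * x, y) (nb m ⟨m0, hm.2⟩)
    have d1 : HasDerivAt (fun s : ℝ => (s * x, y)) (x, 0) m :=
      (hasDerivAt_mul_const x).prodMk (hasDerivAt_const m y)
    refine ⟨_, (h1.comp_hasDerivAt m d1).neg, fun _ => ?_⟩
    have b' : |y| / 2 < m * |x| := b.trans_le (mul_le_mul_of_nonneg_right hm.1 x0)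
    have n : ‖(m * x, y)‖ ≤ 2 * (m * |x|) := by
      rw [nrm, abs_mul, abs_of_nonneg m0, max_le_iff]
      constructor <;> linarith
    have a1 := (neg_abs_le _).trans' (neg_le_neg ((abs_mul x (L (1, 0) - m * x)).le.trans
      (mul_le_mul_of_nonneg_left (h2.trans (div_le_div_of_nonneg_right n (by norm_num))) x0)))
    have a3 := sq_abs x
    have a4 : 0 < |x| * (m * |x|) := by
      have : 0 < |x| := by
        by_contra hq
        rw [le_antisymm (not_lt.1 hq) x0] at b'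
        linarith
      exact mul_pos this (by linarith)
    rw [lin]
    nlinarith
  simp only [one_mul] at this
  linarith [not_lt.1 hn]

variable {P V : Type} [MetricSpace P] [NormedAddCommGroup V] [NormedSpace ℝ V] {p : P}

theorem Ch.comp {V' : Type} [NormedAddCommGroup V'] [NormedSpace ℝ V'] {φ : V → P} (h : Ch φ p)
    (T : V' ≃L[ℝ] V) : Ch (fun w => φ (T w)) p := by
  have t : Tendsto T (𝓝 0) (𝓝 0) := by simpa using T.continuous.tendsto 0
  refine ⟨by rw [map_zero, h.zero], (t.eventually h.cont).mono fun w hw =>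
    hw.comp T.continuous.continuousAt, (t.eventually h.inj).mono fun w hw e =>
      T.map_eq_zero_iff.1 (hw e), fun U hU => ?_⟩
  rw [← image_image φ T]
  exact h.onto _ (by simpa using T.toHomeomorph.isOpenMap.image_mem_nhds hU)

theorem Sa.nf {f : V → ℝ} (hV : Module.finrank ℝ V = 2) (h : Sa f) (h0 : f 0 = 0) :
    ∃ T : (ℝ × ℝ) ≃L[ℝ] V, ∃ r, 0 < r ∧ NF (fun w => f (T w)) r := by
  obtain ⟨H, u, v, ⟨D, h1, h2, h3⟩, hu, hv⟩ := h
  have sy := second_derivative_symmetric_of_eventually_of_real h1 h3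
  obtain ⟨a, b, aa, bb, ab⟩ : ∃ a b, H a a = 1 ∧ H b b = -1 ∧ H a b = 0 := by
    set v' := v - (H u v / H u u) • u with hv'
    have e1 : H u v' = 0 := by
      rw [hv', map_sub, map_smul, smul_eq_mul, div_mul_cancel₀ _ hu.ne', sub_self]
    have e2 : H v' v' < 0 := by
      have : H v' v' = H v v - H u v / H u u * H u v := by
        conv_lhs => rw [hv', map_sub, map_smul, ← hv', sy v' u, e1, sy v' v, hv', map_sub, map_smul,
          sy v u]
        simp
      rw [this, div_mul_eq_mul_div]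
      have := div_nonneg (mul_self_nonneg (H u v)) hu.le
      linarith
    refine ⟨(√(H u u))⁻¹ • u, (√(-H v' v'))⁻¹ • v', ?_, ?_, ?_⟩
    · simp only [map_smul, ContinuousLinearMap.smul_apply, smul_eq_mul]
      rw [← mul_assoc, ← mul_inv, Real.mul_self_sqrt hu.le, inv_mul_cancel₀ hu.ne']
    · simp only [map_smul, ContinuousLinearMap.smul_apply, smul_eq_mul]
      rw [← mul_assoc, ← mul_inv, Real.mul_self_sqrt (neg_pos.2 e2).le, inv_neg, neg_mul,
        inv_mul_cancel₀ e2.ne]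
    · simp only [map_smul, ContinuousLinearMap.smul_apply, smul_eq_mul, e1, mul_zero]
  have ba : H b a = 0 := (sy b a).trans ab
  haveI : Module.Finite ℝ V := Module.finite_of_finrank_pos (by omega)
  let T0 : (ℝ × ℝ) →ₗ[ℝ] V := (LinearMap.toSpanSingleton ℝ V a).coprod
    (LinearMap.toSpanSingleton ℝ V b)
  have e0 : ∀ w, T0 w = w.1 • a + w.2 • b := fun w => rfl
  have ea : ∀ w, H (T0 w) a = w.1 := fun w => by simp [e0, aa, ba]
  have eb : ∀ w, H (T0 w) b = -w.2 := fun w => by simp [e0, bb, ab]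
  have inj : Function.Injective T0 := by
    intro w w' e
    refine Prod.ext ?_ (neg_injective ?_)
    · rw [← ea, ← ea, e]
    · rw [← eb, ← eb, e]
  let T : (ℝ × ℝ) ≃L[ℝ] V := (T0.linearEquivOfInjective inj (by simp [hV])).toContinuousLinearEquiv
  have eT : ∀ w, T w = T0 w := fun w => rfl
  have t : Tendsto T (𝓝 0) (𝓝 0) := by simpa using T.continuous.tendsto 0
  have o : ∀ c : V, ∀ᶠ w in 𝓝 (0 : ℝ × ℝ), ‖D (T w) c - H (T w) c‖ ≤ 1 / 10 * ‖w‖ := by
    intro c
    have d0 : HasFDerivAt D H (T 0) := by rwa [map_zero]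
    have d1 := ((ContinuousLinearMap.apply ℝ ℝ c).hasFDerivAt.comp _ d0).comp (0 : ℝ × ℝ)
      T.hasFDerivAt
    have := d1.isLittleO.def (c := 1 / 10) (by norm_num)
    simpa [h2] using this
  obtain ⟨r, r0, hr⟩ := Metric.eventually_nhds_iff_ball.1 ((t.eventually h1).and ((o a).and (o b)))
  refine ⟨T, r, r0, by simpa using h0, fun w hw => ?_⟩
  obtain ⟨k1, k2, k3⟩ := hr w (mem_ball_zero_iff.2 hw)
  refine ⟨_, k1.comp w T.hasFDerivAt, ?_, ?_⟩
  · rw [eT w, ea, ← eT, Real.norm_eq_abs] at k2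
    have : T (1, 0) = a := by simp [eT, e0]
    simp only [ContinuousLinearMap.comp_apply, ContinuousLinearEquiv.coe_coe, this]
    linarith
  · rw [eT w, eb, ← eT, Real.norm_eq_abs, sub_neg_eq_add] at k3
    have : T (0, 1) = b := by simp [eT, e0]
    simp only [ContinuousLinearMap.comp_apply, ContinuousLinearEquiv.coe_coe, this]
    linarith

/-- The lower sectors of a saddle in normal form. -/
theorem sect {ψ : ℝ × ℝ → P} {g : P → ℝ} {r : ℝ} (h : Ch ψ p) (r0 : 0 < r)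
    (hc : ∀ w, ‖w‖ < r → ContinuousAt ψ w) (hn : NF (fun w => g (ψ w)) r) :
    p ∈ closure {q | g q < 0} ∧ (∀ y, |y| < r → y ≠ 0 → g (ψ (0, y)) < 0) ∧
      ∀ x y, ‖(x, y)‖ < r → g (ψ (x, y)) < 0 →
        (0 < y ∧ JoinedIn {q | g q < 0} (ψ (x, y)) (ψ (0, r / 2))) ∨
        (y < 0 ∧ JoinedIn {q | g q < 0} (ψ (x, y)) (ψ (0, -(r / 2)))) := by
  have n0 : ∀ y, |y| < r → ‖((0 : ℝ), y)‖ < r := fun y hy => by
    rw [nrm, abs_zero]
    exact max_lt r0 hy
  have ax : ∀ y, |y| < r → y ≠ 0 → g (ψ (0, y)) < 0 := fun y hy e =>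
    hn.cone (n0 y hy) e (by simp; positivity)
  refine ⟨h.clos (0, 1) ?_, ax, fun x y hw hg => ?_⟩
  · filter_upwards [Ioo_mem_nhdsGT r0] with l hl
    simpa using ax l (by rw [abs_of_pos hl.1]; exact hl.2) hl.1.ne'
  obtain ⟨hy, hs⟩ := hn.hor hw hg
  rw [nrm, max_lt_iff] at hw
  have j1 : JoinedIn {q | g q < 0} (ψ (0, y)) (ψ (x, y)) := by
    have := jn_line (φ := ψ) (O := {q | g q < 0}) (a := (0, y)) (v := (x, 0)) zero_le_one
      fun l hl => by
        have e : ((0 : ℝ), y) + l • (x, (0 : ℝ)) = (l * x, y) := by simp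
        rw [e]
        refine ⟨hc _ ?_, hs l hl⟩
        rw [nrm, max_lt_iff, abs_mul, abs_of_nonneg hl.1]
        exact ⟨by nlinarith [hl.2, hw.1, abs_nonneg x], hw.2⟩
    simpa using this
  have j2 : ∀ y', |y'| < r → 0 < y * y' → JoinedIn {q | g q < 0} (ψ (0, y)) (ψ (0, y')) := by
    intro y' h1 h2
    have := jn_line (φ := ψ) (O := {q | g q < 0}) (a := (0, y)) (v := (0, y' - y)) zero_le_one
      fun l hl => by
        have e : ((0 : ℝ), y) + l • ((0 : ℝ), y' - y) = (0, y + l * (y' - y)) := by simp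
        have b : |y + l * (y' - y)| < r := by
          have := (convex_Ioo (-r) r).add_smul_sub_mem (abs_lt.1 hw.2) (abs_lt.1 h1) hl
          exact abs_lt.2 this
        rw [e]
        refine ⟨hc _ (n0 _ b), ax _ b fun e' => ?_⟩
        have : y * (y + l * (y' - y)) = 0 := by rw [e', mul_zero]
        have y2 := mul_self_pos.2 hy
        rcases hl.1.eq_or_lt with l0 | l0
        · rw [← l0] at this
          nlinarith
        · nlinarith [mul_pos l0 h2, mul_nonneg (sub_nonneg.2 hl.2) y2.le]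
    simpa using this
  have r2 := half_pos r0
  rcases hy.lt_or_gt with e | e
  · exact Or.inr ⟨e, j1.symm.trans (j2 _ (by rw [abs_neg, abs_of_pos r2]; linarith)
      (mul_pos_of_neg_of_neg e (by linarith)))⟩
  · exact Or.inl ⟨e, j1.symm.trans (j2 _ (by rw [abs_of_pos r2]; linarith) (mul_pos e r2))⟩

end Pool.Agent.MP_3ee8cb_gt.D3MO
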